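import Pool.Agent.GJ.Bas

/-!
# GJ/R-Nm: the norm of a character (paper C2)

`H'` has index `2` in `H`: `a b ∈ H'` iff (`a ∈ H'` iff `b ∈ H'`) for `a, b ∈ H` (`nm_mem`).  All elements of `H` outside `H'` act in the same way on `ζ` (`nm_cj`), so the norm does not depend on the choice of `τ`, is multiplicative (four cases), and is determined
by `ζ` at the places under consideration.
-/

namespace Pool.Agent.GJ

open MulAction Pool.Agent.H73.DU Pool.Agent.H73.AL Pool.Agent.LD Pool.Agent.TS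

section group

variable {G : Type} [Group G]

private theorem nm_mem {H H' : Subgroup G} (hi : H'.relIndex H = 2) {a b : G} (ha : a ∈ H)
    (hb : b ∈ H) : a * b ∈ H' ↔ (a ∈ H' ↔ b ∈ H') := by
  have h1 := Subgroup.mul_mem_iff_of_index_two (H := H'.subgroupOf H) hi (a := ⟨a, ha⟩)
    (b := ⟨b, hb⟩)
  simpa only [Subgroup.mem_subgroupOf, Subgroup.coe_mul] using h1

private theorem nm_conj_mem {H H' : Subgroup G} (hle : H' ≤ H) (hi : H'.relIndex H = 2) {a h : G}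
    (ha : a ∈ H) (hh : h ∈ H') : a * h * a⁻¹ ∈ H' := by
  rw [nm_mem hi (H.mul_mem ha (hle hh)) (H.inv_mem ha), nm_mem hi ha (hle hh), inv_mem_iff]
  exact ⟨fun h1 => h1.2 hh, fun h1 => ⟨fun _ => hh, fun _ => h1⟩⟩

private theorem nm_inn {H' : Subgroup G} {ζ : G → ℤˣ} (hζ : Mulp H' ζ) {y h : G}
    (hy : y ∈ H') (hh : h ∈ H') : ζ (y * h * y⁻¹) = ζ h := by
  have h1 : ζ y * ζ y⁻¹ = 1 := by
    rw [← hζ y hy _ (H'.inv_mem hy), mul_inv_cancel, hζ.one]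
  rw [hζ _ (H'.mul_mem hy hh) _ (H'.inv_mem hy), hζ y hy h hh, mul_right_comm, h1, one_mul]

/-- all elements outside `H'` act in the same way on `ζ` -/
private theorem nm_cj {H H' : Subgroup G} (hle : H' ≤ H) (hi : H'.relIndex H = 2) {a b h : G}
    (ha : a ∈ H) (ha' : a ∉ H') (hb : b ∈ H) (hb' : b ∉ H') {ζ : G → ℤˣ} (hζ : Mulp H' ζ)
    (hh : h ∈ H') : ζ (a * h * a⁻¹) = ζ (b * h * b⁻¹) := by
  have h1 : a * b⁻¹ ∈ H' := by
    rw [nm_mem hi ha (H.inv_mem hb), inv_mem_iff]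
    exact ⟨fun h => absurd h ha', fun h => absurd h hb'⟩
  rw [← nm_inn hζ h1 (nm_conj_mem hle hi hb hh)]
  congr 1
  group

theorem nm_mulp {H H' : Subgroup G} (hle : H' ≤ H) (hi : H'.relIndex H = 2) {τ : G} (hτ : τ ∈ H)
    (hτ' : τ ∉ H') {ζ : G → ℤˣ} (hζ : Mulp H' ζ) : Mulp H (nm H' τ ζ) := by
  intro a ha b hb
  have hab := nm_mem hi ha hb
  unfold nm
  by_cases ha' : a ∈ H'
  · by_cases hb' : b ∈ H'
    · rw [if_pos (hab.2 ⟨fun _ => hb', fun _ => ha'⟩), if_pos ha', if_pos hb', hζ a ha' b hb']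
      have h1 : τ * (a * b) * τ⁻¹ = (τ * a * τ⁻¹) * (τ * b * τ⁻¹) := by group
      rw [h1, hζ _ (nm_conj_mem hle hi hτ ha') _ (nm_conj_mem hle hi hτ hb')]
      exact mul_mul_mul_comm _ _ _ _
    · have hbb : b * b ∈ H' := (nm_mem hi hb hb).2 Iff.rfl
      rw [if_neg (fun h => hb' ((hab.1 h).1 ha')), if_pos ha', if_neg hb']
      have h1 : a * b * (a * b) = a * (b * a * b⁻¹) * (b * b) := by group
      rw [h1, hζ _ (H'.mul_mem ha' (nm_conj_mem hle hi hb ha')) _ hbb,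
        hζ _ ha' _ (nm_conj_mem hle hi hb ha'), nm_cj hle hi hb hb' hτ hτ' hζ ha']
  · have haa : a * a ∈ H' := (nm_mem hi ha ha).2 Iff.rfl
    by_cases hb' : b ∈ H'
    · rw [if_neg (fun h => ha' ((hab.1 h).2 hb')), if_neg ha', if_pos hb']
      have h1 : a * b * (a * b) = (a * b * a⁻¹) * (a * a) * b := by group
      rw [h1, hζ _ (H'.mul_mem (nm_conj_mem hle hi ha hb') haa) _ hb',
        hζ _ (nm_conj_mem hle hi ha hb') _ haa, nm_cj hle hi ha ha' hτ hτ' hζ hb',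
        mul_comm (ζ (τ * b * τ⁻¹)), mul_assoc, mul_comm (ζ (τ * b * τ⁻¹))]
    · have hbb : b * b ∈ H' := (nm_mem hi hb hb).2 Iff.rfl
      have hab' : a * b ∈ H' := hab.2 ⟨fun h => absurd h ha', fun h => absurd h hb'⟩
      have hba' : b * a ∈ H' :=
        (nm_mem hi hb ha).2 ⟨fun h => absurd h hb', fun h => absurd h ha'⟩
      rw [if_pos hab', if_neg ha', if_neg hb', nm_cj hle hi hτ hτ' hb hb' hζ hab']
      have h1 : b * (a * b) * b⁻¹ = b * a := by group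
      have h2 : (a * b) * (b * a) = (a * (b * b) * a⁻¹) * (a * a) := by group
      have h3 : b * (b * b) * b⁻¹ = b * b := by group
      rw [h1, ← hζ _ hab' _ hba', h2, hζ _ (nm_conj_mem hle hi ha hbb) _ haa,
        nm_cj hle hi ha ha' hb hb' hζ hbb, h3, mul_comm]

/-- the norm does not depend on `τ` -/
theorem nm_tau {H H' : Subgroup G} (hle : H' ≤ H) (hi : H'.relIndex H = 2) {τ τ1 : G}
    (hτ : τ ∈ H) (hτ' : τ ∉ H') (hτ1 : τ1 ∈ H) (hτ1' : τ1 ∉ H') {ζ : G → ℤˣ} (hζ : Mulp H' ζ) :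
    ∀ h ∈ H, nm H' τ ζ h = nm H' τ1 ζ h := by
  intro h _
  unfold nm
  by_cases hh : h ∈ H'
  · rw [if_pos hh, if_pos hh, nm_cj hle hi hτ hτ' hτ1 hτ1' hζ hh]
  · rw [if_neg hh, if_neg hh]

end group

theorem nm_chr {H H' : Subgroup GQ} (hH' : IsOpen (H' : Set GQ)) (hle : H' ≤ H)
    (hi : H'.relIndex H = 2) {τ : GQ} (hτ : τ ∈ H) (hτ' : τ ∉ H') {ζ : GQ → ℤˣ}
    (hζ : IsChr H' ζ) : IsChr H (nm H' τ ζ) := by
  have hm := nm_mulp hle hi hτ hτ' hζ.1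
  refine ⟨hm, ?_⟩
  have h1 : IsOpen ((kr H' ζ ⊓ (kr H' ζ).comap (MulAut.conj τ).toMonoidHom : Subgroup GQ) :
      Set GQ) := by
    rw [Subgroup.coe_inf]
    refine hζ.2.inter ?_
    have h2 : Continuous fun g : GQ => τ * g * τ⁻¹ := by fun_prop
    exact hζ.2.preimage h2
  refine Subgroup.isOpen_mono ?_ h1
  intro g hg
  obtain ⟨hg1, hg2⟩ := hg
  have hg3 : τ * g * τ⁻¹ ∈ kr H' ζ := hg2
  rw [mem_kr hm]
  have hg4 := (mem_kr hζ.1).1 hg1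
  refine ⟨hle hg4.1, ?_⟩
  unfold nm
  rw [if_pos hg4.1, hg4.2, ((mem_kr hζ.1).1 hg3).2, one_mul]

private theorem nm_D {P : Pl} {g h : GQ} (hg : g ∈ P.D) : h * g * h⁻¹ ∈ (P.mv h).D := by
  unfold Pl.D at hg ⊢
  obtain ⟨u, hu, hu'⟩ := mem_cj_iff.1 hg
  refine mem_cj_iff.2 ⟨u, hu, ?_⟩
  rw [← hu']
  simp only [Pl.mv, inv_inv, mul_inv_rev, mul_assoc]

theorem nm_ttr {T : Finset ℕ} {H H' : Subgroup GQ} (hle : H' ≤ H)
    (hi : H'.relIndex H = 2) {τ : GQ} (hτ : τ ∈ H) (hτ' : τ ∉ H') {ζ : GQ → ℤˣ}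
    (hζ : Mulp H' ζ) (hT : TTr T H' ζ) : TTr T H (nm H' τ ζ) := by
  intro P hP h h1 h2
  unfold nm
  by_cases hh : h ∈ H'
  · rw [if_pos hh, hT P hP h h1 hh,
      hT (P.mv τ) hP _ (nm_D h1) (nm_conj_mem hle hi hτ hh), one_mul]
  · rw [if_neg hh]
    exact hT P hP _ (P.D.mul_mem h1 h1) ((nm_mem hi h2 h2).2 Iff.rfl)

/-- nonsplit place: the norm only depends on the restriction of `ζ` to the place -/
theorem nm_nonsplit {H H' : Subgroup GQ} (hle : H' ≤ H) (hi : H'.relIndex H = 2) {τ : GQ}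
    (hτ : τ ∈ H) (hτ' : τ ∉ H') {ζ ζ' : GQ → ℤˣ} (hζ : Mulp H' ζ) (hζ' : Mulp H' ζ') {P : Pl}
    (hP : ¬ P.D ⊓ H ≤ H') (h : EqAt H' P ζ ζ') : EqAt H P (nm H' τ ζ) (nm H' τ ζ') := by
  rw [SetLike.not_le_iff_exists] at hP
  obtain ⟨g, hg, hg'⟩ := hP
  intro x hx hxH
  unfold nm
  by_cases hh : x ∈ H'
  · rw [if_pos hh, if_pos hh, nm_cj hle hi hτ hτ' hg.2 hg' hζ hh,
      nm_cj hle hi hτ hτ' hg.2 hg' hζ' hh, h x hx hh,
      h _ (P.D.mul_mem (P.D.mul_mem hg.1 hx) (P.D.inv_mem hg.1)) (nm_conj_mem hle hi hg.2 hh)]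
  · rw [if_neg hh, if_neg hh]
    exact h _ (P.D.mul_mem hx hx) ((nm_mem hi hxH hxH).2 Iff.rfl)

/-- split place: the norm is the product of the values at the two places `P` and `τ P` -/
theorem nm_split {H H' : Subgroup GQ} {τ : GQ} {ζ : GQ → ℤˣ} {P : Pl}
    (hP : P.D ⊓ H ≤ H') : ∀ h ∈ P.D, h ∈ H → nm H' τ ζ h = ζ h * ζ (τ * h * τ⁻¹) := by
  intro h h1 h2
  unfold nm
  rw [if_pos (hP ⟨h1, h2⟩)]

end Pool.Agent.GJ
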