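import Pool.Agent.GJ.R.Nm

/-!
# GJ/R-NmC: transitivity of the norm in a biquadratic extension (paper C2)

`A = ker a`, `B = ker b`, `K4 = A ⊓ B`, `τa ∈ B` outside `A`, `τb ∈ A` outside `B`.  Four cases: `h ∈ K4`: both sides are the product of `ζ` at `h` and its conjugates by `τa`, `τb`, `τb τa` resp. `τa τb` (which differ by an element of `K4`).
`h ∈ A`, `h ∉ B`: both are `ζ (h h) ζ (τa (h h) τa⁻¹)`.  Symmetric for `h ∈ B`, `h ∉ A`.
`h ∉ A`, `h ∉ B`: left `ζ (h h) ζ (τb (h h) τb⁻¹)`, right `ζ (h h) ζ (τa (h h) τa⁻¹)`; `τa (h h) τa⁻¹ = (τa h) (h h) (τa h)⁻¹` and `τb (τa h)⁻¹ ∈ K4`.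
-/

namespace Pool.Agent.GJ

open MulAction Pool.Agent.H73.DU Pool.Agent.H73.AL Pool.Agent.LD Pool.Agent.TS

variable {G : Type} [Group G]

private theorem NmC_inv {H : Subgroup G} {a : G → ℤˣ} (ha : Mulp H a) {g : G} (hg : g ∈ H) :
    a g⁻¹ = a g := by
  have h := ha g hg g⁻¹ (H.inv_mem hg)
  rw [mul_inv_cancel, ha.one] at h
  have h1 : a g⁻¹ = (a g)⁻¹ := eq_inv_of_mul_eq_one_right h.symm
  rw [h1, Int.units_inv_eq_self]

private theorem NmC_cj {H : Subgroup G} {a : G → ℤˣ} (ha : Mulp H a) {c g : G} (hc : c ∈ H)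
    (hg : g ∈ H) : a (c * g * c⁻¹) = a g := by
  rw [ha _ (H.mul_mem hc hg) _ (H.inv_mem hc), ha c hc g hg, NmC_inv ha hc, mul_comm (a c),
    mul_assoc, Int.units_mul_self, mul_one]

private theorem NmC_L2 {K : Subgroup G} {ζ : G → ℤˣ} (hζ : Mulp K ζ) {c c' y : G}
    (hk : c' * c⁻¹ ∈ K) (hy : c * y * c⁻¹ ∈ K) : ζ (c' * y * c'⁻¹) = ζ (c * y * c⁻¹) := by
  have h : c' * y * c'⁻¹ = (c' * c⁻¹) * (c * y * c⁻¹) * (c' * c⁻¹)⁻¹ := by group
  rw [h]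
  exact NmC_cj hζ hk hy

theorem nm_comm {H : Subgroup G} {a b : G → ℤˣ} (ha : Mulp H a) (hb : Mulp H b)
    {τa τb : G} (h1 : τa ∈ H) (h2 : a τa = -1) (h3 : b τa = 1) (h4 : τb ∈ H) (h5 : a τb = 1)
    (h6 : b τb = -1) {ζ : G → ℤˣ} (hζ : Mulp (kr H a ⊓ kr H b) ζ) : ∀ h ∈ H,
      nm (kr H a) τa (nm (kr H a ⊓ kr H b) τb ζ) h =
        nm (kr H b) τb (nm (kr H a ⊓ kr H b) τa ζ) h := by
  intro h hh
  have hA : ∀ g ∈ H, (g ∈ kr H a ↔ a g = 1) := fun g hg =>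
    ⟨fun h => ((mem_kr ha).1 h).2, fun h => (mem_kr ha).2 ⟨hg, h⟩⟩
  have hB : ∀ g ∈ H, (g ∈ kr H b ↔ b g = 1) := fun g hg =>
    ⟨fun h => ((mem_kr hb).1 h).2, fun h => (mem_kr hb).2 ⟨hg, h⟩⟩
  have hK : ∀ g ∈ H, (g ∈ kr H a ⊓ kr H b ↔ a g = 1 ∧ b g = 1) := fun g hg => by
    rw [Subgroup.mem_inf, hA g hg, hB g hg]
  have hm : ∀ x ∈ H, ∀ y ∈ H, x * y ∈ H := fun x hx y hy => H.mul_mem hx hy
  have hi : ∀ x ∈ H, x⁻¹ ∈ H := fun x hx => H.inv_mem hx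
  have hcj : ∀ c ∈ H, ∀ g ∈ H, c * g * c⁻¹ ∈ H := fun c hc g hg => hm _ (hm c hc g hg) _ (hi c hc)
  have hne : (-1 : ℤˣ) ≠ 1 := by decide
  have hsq : h * h ∈ kr H a ⊓ kr H b := by
    rw [hK _ (hm h hh h hh), ha h hh h hh, hb h hh h hh]
    exact ⟨Int.units_mul_self _, Int.units_mul_self _⟩
  have hcK : ∀ c ∈ H, ∀ g ∈ kr H a ⊓ kr H b, c * g * c⁻¹ ∈ kr H a ⊓ kr H b := by
    intro c hc g hg
    have hgH : g ∈ H := hg.1.1
    rw [hK _ (hcj c hc g hgH), NmC_cj ha hc hgH, NmC_cj hb hc hgH]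
    exact (hK g hgH).1 hg
  by_cases hha : a h = 1
  · by_cases hhb : b h = 1
    · have hhK : h ∈ kr H a ⊓ kr H b := (hK h hh).2 ⟨hha, hhb⟩
      have e1 : nm (kr H a) τa (nm (kr H a ⊓ kr H b) τb ζ) h =
          (ζ h * ζ (τb * h * τb⁻¹)) *
            (ζ (τa * h * τa⁻¹) * ζ (τb * (τa * h * τa⁻¹) * τb⁻¹)) := by
        unfold nm
        rw [if_pos ((hA h hh).2 hha), if_pos hhK, if_pos (hcK τa h1 h hhK)]
      have e2 : nm (kr H b) τb (nm (kr H a ⊓ kr H b) τa ζ) h =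
          (ζ h * ζ (τa * h * τa⁻¹)) *
            (ζ (τb * h * τb⁻¹) * ζ (τa * (τb * h * τb⁻¹) * τa⁻¹)) := by
        unfold nm
        rw [if_pos ((hB h hh).2 hhb), if_pos hhK, if_pos (hcK τb h4 h hhK)]
      have e3 : ζ (τb * (τa * h * τa⁻¹) * τb⁻¹) = ζ (τa * (τb * h * τb⁻¹) * τa⁻¹) := by
        have g1 : τb * (τa * h * τa⁻¹) * τb⁻¹ = (τb * τa) * h * (τb * τa)⁻¹ := by group
        have g2 : τa * (τb * h * τb⁻¹) * τa⁻¹ = (τa * τb) * h * (τa * τb)⁻¹ := by group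
        have hab : τa * τb ∈ H := hm _ h1 _ h4
        have hba : τb * τa ∈ H := hm _ h4 _ h1
        rw [g1, g2]
        refine NmC_L2 hζ ?_ (hcK _ hab h hhK)
        rw [hK _ (hm _ hba _ (hi _ hab)), ha _ hba _ (hi _ hab), hb _ hba _ (hi _ hab),
          NmC_inv ha hab, NmC_inv hb hab, ha _ h4 _ h1, ha _ h1 _ h4, hb _ h4 _ h1, hb _ h1 _ h4,
          h2, h3, h5, h6]
        exact ⟨by decide, by decide⟩
      rw [e1, e2, e3]
      exact mul_mul_mul_comm _ _ _ _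
    · have hnK : ∀ g ∈ H, b g = b h → g ∉ kr H a ⊓ kr H b := by
        intro g hg hgb hgK
        exact hhb (hgb ▸ ((hK g hg).1 hgK).2)
      have e1 : nm (kr H a) τa (nm (kr H a ⊓ kr H b) τb ζ) h =
          ζ (h * h) * ζ ((τa * h * τa⁻¹) * (τa * h * τa⁻¹)) := by
        unfold nm
        rw [if_pos ((hA h hh).2 hha), if_neg (hnK h hh rfl),
          if_neg (hnK _ (hcj τa h1 h hh) (NmC_cj hb h1 hh))]
      have e2 : nm (kr H b) τb (nm (kr H a ⊓ kr H b) τa ζ) h =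
          ζ (h * h) * ζ (τa * (h * h) * τa⁻¹) := by
        unfold nm
        rw [if_neg (fun h0 => hhb ((hB h hh).1 h0)), if_pos hsq]
      have g1 : (τa * h * τa⁻¹) * (τa * h * τa⁻¹) = τa * (h * h) * τa⁻¹ := by group
      rw [e1, e2, g1]
  · by_cases hhb : b h = 1
    · have hnK : ∀ g ∈ H, a g = a h → g ∉ kr H a ⊓ kr H b := by
        intro g hg hga hgK
        exact hha (hga ▸ ((hK g hg).1 hgK).1)
      have e1 : nm (kr H a) τa (nm (kr H a ⊓ kr H b) τb ζ) h =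
          ζ (h * h) * ζ (τb * (h * h) * τb⁻¹) := by
        unfold nm
        rw [if_neg (fun h0 => hha ((hA h hh).1 h0)), if_pos hsq]
      have e2 : nm (kr H b) τb (nm (kr H a ⊓ kr H b) τa ζ) h =
          ζ (h * h) * ζ ((τb * h * τb⁻¹) * (τb * h * τb⁻¹)) := by
        unfold nm
        rw [if_pos ((hB h hh).2 hhb), if_neg (hnK h hh rfl),
          if_neg (hnK _ (hcj τb h4 h hh) (NmC_cj ha h4 hh))]
      have g1 : (τb * h * τb⁻¹) * (τb * h * τb⁻¹) = τb * (h * h) * τb⁻¹ := by group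
      rw [e1, e2, g1]
    · have hha' : a h = -1 := (Int.units_eq_one_or (a h)).resolve_left hha
      have hhb' : b h = -1 := (Int.units_eq_one_or (b h)).resolve_left hhb
      have e1 : nm (kr H a) τa (nm (kr H a ⊓ kr H b) τb ζ) h =
          ζ (h * h) * ζ (τb * (h * h) * τb⁻¹) := by
        unfold nm
        rw [if_neg (fun h0 => hha ((hA h hh).1 h0)), if_pos hsq]
      have e2 : nm (kr H b) τb (nm (kr H a ⊓ kr H b) τa ζ) h =
          ζ (h * h) * ζ (τa * (h * h) * τa⁻¹) := by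
        unfold nm
        rw [if_neg (fun h0 => hhb ((hB h hh).1 h0)), if_pos hsq]
      have g1 : τa * (h * h) * τa⁻¹ = (τa * h) * (h * h) * (τa * h)⁻¹ := by group
      have hah : τa * h ∈ H := hm _ h1 _ hh
      have e3 : ζ (τb * (h * h) * τb⁻¹) = ζ (τa * (h * h) * τa⁻¹) := by
        rw [g1]
        refine NmC_L2 hζ ?_ (hcK _ hah _ hsq)
        rw [hK _ (hm _ h4 _ (hi _ hah)), ha _ h4 _ (hi _ hah), hb _ h4 _ (hi _ hah),
          NmC_inv ha hah, NmC_inv hb hah, ha _ h1 _ hh, hb _ h1 _ hh, h2, h3, h5, h6, hha', hhb']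
        exact ⟨by decide, by decide⟩
      rw [e1, e2, e3]

end Pool.Agent.GJ
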