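import Pool.Agent.GJ.R.Ind
import Pool.Agent.GJ.R.Nm

/-!
# GJ/R-D4: the relation of the norm of a character (paper C3)

The `H`-set with four points is the set `D4X` of the functions `x` on `H` with `x (g h) = x g ζ h`
for `h ∈ H'`, on which `H` acts by translation.
-/

namespace Pool.Agent.GJ

open MulAction Pool.Agent.H73.DU Pool.Agent.H73.AL Pool.Agent.LD Pool.Agent.TS

section abs

variable {Γ : Type} [Group Γ]

/-- the sections of the double cover of `Γ ⧸ A` given by `ζ` -/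
private structure D4X (A : Subgroup Γ) (ζ : Γ → ℤˣ) where
  v : Γ → ℤˣ
  q : ∀ g, ∀ h ∈ A, v (g * h) = v g * ζ h

private theorem d4x {A : Subgroup Γ} {ζ : Γ → ℤˣ} {x y : D4X A ζ} (h : ∀ g, x.v g = y.v g) :
    x = y := by
  cases x
  cases y
  congr
  exact funext h

private instance d4act (A : Subgroup Γ) (ζ : Γ → ℤˣ) : MulAction Γ (D4X A ζ) where
  smul k x := ⟨fun g => x.v (k⁻¹ * g), fun g h hh => by
    rw [← mul_assoc, x.q _ h hh]⟩
  one_smul x := d4x fun g => by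
    change x.v (1⁻¹ * g) = x.v g
    rw [inv_one, one_mul]
  mul_smul k l x := d4x fun g => by
    change x.v ((k * l)⁻¹ * g) = x.v (l⁻¹ * (k⁻¹ * g))
    rw [mul_inv_rev, mul_assoc]

private theorem d4smul {A : Subgroup Γ} {ζ : Γ → ℤˣ} (k : Γ) (x : D4X A ζ) (g : Γ) :
    (k • x).v g = x.v (k⁻¹ * g) := rfl

private theorem d4mem {A : Subgroup Γ} (hi : A.index = 2) {a b : Γ} :
    a * b ∈ A ↔ (a ∈ A ↔ b ∈ A) := Subgroup.mul_mem_iff_of_index_two hi

private theorem d4sq (u : ℤˣ) : u * u = 1 := Int.units_mul_self u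

/-- the coordinates of a section -/
private noncomputable def d4e {A : Subgroup Γ} (hi : A.index = 2) {ζ : Γ → ℤˣ} (hζ : Mulp A ζ)
    {τ : Γ} (hτ : τ ∉ A) : D4X A ζ ≃ ℤˣ × ℤˣ := by
  classical
  refine ⟨fun x => (x.v 1, x.v τ), fun p => ⟨fun g => if g ∈ A then p.1 * ζ g else
    p.2 * ζ (τ⁻¹ * g), ?_⟩, ?_, ?_⟩
  · intro g h hh
    by_cases hg : g ∈ A
    · rw [if_pos hg, if_pos (A.mul_mem hg hh), hζ g hg h hh, mul_assoc]
    · have h1 : g * h ∉ A := fun h2 => hg (((d4mem hi).1 h2).2 hh)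
      have h2 : τ⁻¹ * g ∈ A := (d4mem hi).2 ⟨fun h3 => absurd (A.inv_mem_iff.1 h3) hτ,
        fun h3 => absurd h3 hg⟩
      rw [if_neg hg, if_neg h1, ← mul_assoc, hζ _ h2 h hh, mul_assoc]
  · intro x
    apply d4x
    intro g
    change (if g ∈ A then x.v 1 * ζ g else x.v τ * ζ (τ⁻¹ * g)) = x.v g
    split_ifs with hg
    · rw [← x.q 1 g hg, one_mul]
    · have h2 : τ⁻¹ * g ∈ A := (d4mem hi).2 ⟨fun h3 => absurd (A.inv_mem_iff.1 h3) hτ,
        fun h3 => absurd h3 hg⟩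
      rw [← x.q τ _ h2, mul_inv_cancel_left]
  · rintro ⟨s, t⟩
    change ((if (1 : Γ) ∈ A then s * ζ 1 else t * ζ (τ⁻¹ * 1)),
      (if τ ∈ A then s * ζ τ else t * ζ (τ⁻¹ * τ))) = (s, t)
    rw [if_pos A.one_mem, if_neg hτ, hζ.one, inv_mul_cancel, hζ.one, mul_one, mul_one]

private theorem d4e_apply {A : Subgroup Γ} (hi : A.index = 2) {ζ : Γ → ℤˣ} (hζ : Mulp A ζ)
    {τ : Γ} (hτ : τ ∉ A) (x : D4X A ζ) : d4e hi hζ hτ x = (x.v 1, x.v τ) := rfl

private theorem d4ext {A : Subgroup Γ} (hi : A.index = 2) {ζ : Γ → ℤˣ} (hζ : Mulp A ζ)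
    {τ : Γ} (hτ : τ ∉ A) {x y : D4X A ζ} (h1 : x.v 1 = y.v 1) (h2 : x.v τ = y.v τ) : x = y := by
  apply (d4e hi hζ hτ).injective
  rw [d4e_apply, d4e_apply, h1, h2]

private theorem d4card {A : Subgroup Γ} (hi : A.index = 2) {ζ : Γ → ℤˣ} (hζ : Mulp A ζ)
    {τ : Γ} (hτ : τ ∉ A) : Nat.card (D4X A ζ) = 4 := by
  rw [Nat.card_congr (d4e hi hζ hτ), Nat.card_eq_fintype_card]
  rfl

private theorem d4fin {A : Subgroup Γ} (hi : A.index = 2) {ζ : Γ → ℤˣ} (hζ : Mulp A ζ)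
    {τ : Γ} (hτ : τ ∉ A) : Finite (D4X A ζ) := Finite.of_equiv _ (d4e hi hζ hτ).symm

/-- the conjugate character does not depend on `τ` -/
private theorem d4conj {A : Subgroup Γ} (hi : A.index = 2) {ζ : Γ → ℤˣ} (hζ : Mulp A ζ)
    {τ g : Γ} (hτ : τ ∉ A) (hg : g ∉ A) {u : Γ} (hu : u ∈ A) :
    ζ (g⁻¹ * u * g) = ζ (τ⁻¹ * u * τ) := by
  have hN : A.Normal := Subgroup.normal_of_index_eq_two hi
  have h1 : τ⁻¹ * g ∈ A := (d4mem hi).2 ⟨fun h3 => absurd (A.inv_mem_iff.1 h3) hτ,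
        fun h3 => absurd h3 hg⟩
  have h2 : τ⁻¹ * u * τ ∈ A := by
    have := hN.conj_mem u hu τ⁻¹
    rwa [inv_inv] at this
  have h3 : g⁻¹ * u * g = (τ⁻¹ * g)⁻¹ * (τ⁻¹ * u * τ) * (τ⁻¹ * g) := by group
  rw [h3, hζ _ (A.mul_mem (A.inv_mem h1) h2) _ h1, hζ _ (A.inv_mem h1) _ h2,
    mul_comm (ζ (τ⁻¹ * g)⁻¹), mul_assoc, ← hζ _ (A.inv_mem h1) _ h1, inv_mul_cancel, hζ.one,
    mul_one]

private theorem d4conj' {A : Subgroup Γ} {ζ : Γ → ℤˣ} (hζ : Mulp A ζ)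
    {g : Γ} (hg : g ∈ A) {u : Γ} (hu : u ∈ A) : ζ (g⁻¹ * u * g) = ζ u := by
  rw [hζ _ (A.mul_mem (A.inv_mem hg) hu) _ hg, hζ _ (A.inv_mem hg) _ hu,
    mul_comm (ζ g⁻¹), mul_assoc, ← hζ _ (A.inv_mem hg) _ hg, inv_mul_cancel, hζ.one, mul_one]

/-- the norm at the elements of `A` -/
private theorem d4nm1 {A : Subgroup Γ} (hi : A.index = 2) {ζ : Γ → ℤˣ} (hζ : Mulp A ζ)
    {τ : Γ} (hτ : τ ∉ A) {u : Γ} (hu : u ∈ A) : nm A τ ζ u = ζ u * ζ (τ⁻¹ * u * τ) := by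
  unfold nm
  rw [if_pos hu]
  congr 1
  have := d4conj hi hζ hτ (g := τ⁻¹) (fun h => hτ (A.inv_mem_iff.1 h)) hu
  rwa [inv_inv] at this

private theorem d4nm2 {A : Subgroup Γ} {ζ : Γ → ℤˣ} {τ : Γ} {u : Γ} (hu : u ∉ A) :
    nm A τ ζ u = ζ (u * u) := by
  unfold nm
  rw [if_neg hu]

/-- the action on the product of the coordinates -/
private theorem d4prod {A : Subgroup Γ} (hi : A.index = 2) {ζ : Γ → ℤˣ} (hζ : Mulp A ζ)
    {τ : Γ} (hτ : τ ∉ A) (k : Γ) (x : D4X A ζ) :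
    (k • x).v 1 * (k • x).v τ = nm A τ ζ k * (x.v 1 * x.v τ) := by
  have hN : A.Normal := Subgroup.normal_of_index_eq_two hi
  have hinv : ∀ a ∈ A, ζ a⁻¹ = ζ a := by
    intro a ha
    have h1 : ζ a * ζ a⁻¹ = 1 := by rw [← hζ a ha _ (A.inv_mem ha), mul_inv_cancel, hζ.one]
    have h2 := d4sq (ζ a)
    exact mul_left_cancel (h1.trans h2.symm)
  rw [d4smul, d4smul, mul_one]
  by_cases hk : k ∈ A
  · have h1 : x.v k⁻¹ = x.v 1 * ζ k := by
      rw [← hinv k hk, ← x.q 1 _ (A.inv_mem hk), one_mul]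
    have h2 : τ⁻¹ * k * τ ∈ A := by
      have := hN.conj_mem k hk τ⁻¹
      rwa [inv_inv] at this
    have h3 : x.v (k⁻¹ * τ) = x.v τ * ζ (τ⁻¹ * k * τ) := by
      rw [← hinv _ h2, ← x.q τ _ (A.inv_mem h2)]
      congr 1
      group
    rw [h1, h3, d4nm1 hi hζ hτ hk]
    exact (mul_mul_mul_comm _ _ _ _).trans (mul_comm _ _)
  · have hk' : k⁻¹ ∉ A := fun h => hk (A.inv_mem_iff.1 h)
    have hτ' : τ⁻¹ ∉ A := fun h => hτ (A.inv_mem_iff.1 h)
    have h2 : τ⁻¹ * k⁻¹ ∈ A := (d4mem hi).2 ⟨fun h3 => absurd h3 hτ', fun h3 => absurd h3 hk'⟩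
    have h4 : k⁻¹ * τ ∈ A := (d4mem hi).2 ⟨fun h3 => absurd h3 hk', fun h3 => absurd h3 hτ⟩
    have h1 : x.v k⁻¹ = x.v τ * ζ (τ⁻¹ * k⁻¹) := by
      rw [← x.q τ _ h2, mul_inv_cancel_left]
    have h3 : x.v (k⁻¹ * τ) = x.v 1 * ζ (k⁻¹ * τ) := by
      rw [← x.q 1 _ h4, one_mul]
    have h5 : ζ (k * k) = ζ (τ⁻¹ * k⁻¹) * ζ (k⁻¹ * τ) := by
      have h6 : k * k ∈ A := (d4mem hi).2 Iff.rfl
      rw [mul_comm, ← hζ _ h4 _ h2, ← hinv _ h6]
      congr 1
      group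
    rw [h1, h3, d4nm2 hk, h5, mul_mul_mul_comm, mul_comm (x.v τ)]
    exact mul_comm _ _


private theorem d4ti {A : Subgroup Γ} (hi : A.index = 2) {τ : Γ} (hτ : τ ∉ A) {g : Γ}
    (hg : g ∉ A) : τ⁻¹ * g ∈ A :=
  (d4mem hi).2 ⟨fun h3 => absurd (A.inv_mem_iff.1 h3) hτ, fun h3 => absurd h3 hg⟩

private theorem d4gt {A : Subgroup Γ} (hi : A.index = 2) {τ : Γ} (hτ : τ ∉ A) {g : Γ}
    (hg : g ∉ A) : g * τ ∈ A :=
  (d4mem hi).2 ⟨fun h3 => absurd h3 hg, fun h3 => absurd h3 hτ⟩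

private theorem d4cn {A : Subgroup Γ} (hi : A.index = 2) (τ : Γ) {u : Γ} (hu : u ∈ A) :
    τ⁻¹ * u * τ ∈ A := by
  have hN : A.Normal := Subgroup.normal_of_index_eq_two hi
  have := hN.conj_mem u hu τ⁻¹
  rwa [inv_inv] at this

private theorem d4v1 {A : Subgroup Γ} {ζ : Γ → ℤˣ} (x : D4X A ζ) {u : Γ} (hu : u ∈ A) :
    x.v u = x.v 1 * ζ u := by
  rw [← x.q 1 _ hu, one_mul]

private theorem d4v2 {A : Subgroup Γ} (hi : A.index = 2) {ζ : Γ → ℤˣ} (x : D4X A ζ) (τ : Γ)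
    {u : Γ} (hu : u ∈ A) : x.v (u * τ) = x.v τ * ζ (τ⁻¹ * u * τ) := by
  rw [← x.q τ _ (d4cn hi τ hu)]
  congr 1
  group

private theorem d4v3 {A : Subgroup Γ} (hi : A.index = 2) {ζ : Γ → ℤˣ} (x : D4X A ζ) {τ : Γ}
    (hτ : τ ∉ A) {u : Γ} (hu : u ∉ A) : x.v u = x.v τ * ζ (τ⁻¹ * u) := by
  rw [← x.q τ _ (d4ti hi hτ hu), mul_inv_cancel_left]

private theorem d4v4 {A : Subgroup Γ} (hi : A.index = 2) {ζ : Γ → ℤˣ} (x : D4X A ζ) {τ : Γ}
    (hτ : τ ∉ A) {u : Γ} (hu : u ∉ A) : x.v (u * τ) = x.v 1 * ζ (u * τ) :=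
  d4v1 x (d4gt hi hτ hu)

private theorem d4fx {A : Subgroup Γ} (hi : A.index = 2) {ζ : Γ → ℤˣ} (hζ : Mulp A ζ)
    {τ : Γ} (hτ : τ ∉ A) {W : Subgroup Γ} {x : D4X A ζ} :
    x ∈ fx (D4X A ζ) W ↔ ∀ u ∈ W, x.v u = x.v 1 ∧ x.v (u * τ) = x.v τ := by
  rw [mem_fx]
  constructor
  · intro h u hu
    have h1 := h u⁻¹ (W.inv_mem hu)
    constructor
    · have h2 := d4smul u⁻¹ x 1
      rw [h1, inv_inv, mul_one] at h2
      exact h2.symm
    · have h2 := d4smul u⁻¹ x τ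
      rw [h1, inv_inv] at h2
      exact h2.symm
  · intro h u hu
    have h1 := h u⁻¹ (W.inv_mem hu)
    refine d4ext hi hζ hτ ?_ ?_
    · rw [d4smul, mul_one]
      exact h1.1
    · rw [d4smul]
      exact h1.2

private theorem d4self {a b : ℤˣ} (h : a * b = a) : b = 1 := mul_eq_left.1 h

open Classical in
private theorem d4pA {A : Subgroup Γ} (hi : A.index = 2) {ζ : Γ → ℤˣ} (hζ : Mulp A ζ)
    {τ : Γ} (hτ : τ ∉ A) {W : Subgroup Γ} (hW : W ≤ A) :
    pch Γ (D4X A ζ) W = if (∀ u ∈ W, ζ u = 1) ∧ ∀ u ∈ W, ζ (τ⁻¹ * u * τ) = 1 then 4 else 0 := by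
  unfold pch
  split_ifs with h
  · have h1 : fx (D4X A ζ) W = Set.univ := by
      ext x
      simp only [Set.mem_univ, iff_true]
      rw [d4fx hi hζ hτ]
      intro u hu
      rw [d4v1 x (hW hu), d4v2 hi x τ (hW hu), h.1 u hu, h.2 u hu, mul_one, mul_one]
      exact ⟨rfl, rfl⟩
    rw [h1, Nat.card_coe_set_eq, Set.ncard_univ, d4card hi hζ hτ]
    rfl
  · have h1 : fx (D4X A ζ) W = ∅ := by
      ext x
      simp only [Set.mem_empty_iff_false, iff_false]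
      intro hx
      rw [d4fx hi hζ hτ] at hx
      apply h
      constructor
      · intro u hu
        have h2 := (hx u hu).1
        rw [d4v1 x (hW hu)] at h2
        exact d4self h2
      · intro u hu
        have h2 := (hx u hu).2
        rw [d4v2 hi x τ (hW hu)] at h2
        exact d4self h2
    rw [h1]
    simp

open Classical in
private theorem d4pB {A : Subgroup Γ} (hi : A.index = 2) {ζ : Γ → ℤˣ} (hζ : Mulp A ζ)
    {τ : Γ} (hτ : τ ∉ A) {W : Subgroup Γ} {w : Γ} (hw : w ∈ W) (hw' : w ∉ A) :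
    pch Γ (D4X A ζ) W = if ∀ u ∈ W, u ∈ A → ζ u = 1 then 2 else 0 := by
  unfold pch
  split_ifs with h
  · have h0 : ∀ x ∈ fx (D4X A ζ) W, x.v τ = x.v 1 * ζ (τ⁻¹ * w) := by
      intro x hx
      have h1 := ((d4fx hi hζ hτ).1 hx w hw).1
      rw [← h1, d4v3 hi x hτ hw', mul_assoc, d4sq, mul_one]
    have h2 : Nat.card (fx (D4X A ζ) W) = Nat.card ℤˣ := by
      refine Nat.card_congr (Equiv.ofBijective (fun x : fx (D4X A ζ) W => x.1.v 1) ⟨?_, ?_⟩)
      · intro x y hxy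
        have hxy' : x.1.v 1 = y.1.v 1 := hxy
        refine Subtype.ext (d4ext hi hζ hτ hxy' ?_)
        rw [h0 _ x.2, h0 _ y.2, hxy']
      · intro s
        obtain ⟨x, hx⟩ := (d4e hi hζ hτ).surjective (s, s * ζ (τ⁻¹ * w))
        rw [d4e_apply, Prod.mk.injEq] at hx
        refine ⟨⟨x, ?_⟩, hx.1⟩
        rw [d4fx hi hζ hτ]
        intro u hu
        by_cases hu' : u ∈ A
        · have h3 : ζ (τ⁻¹ * u * τ) = 1 := by
            rw [← d4conj hi hζ hτ hw' hu']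
            exact h _ (W.mul_mem (W.mul_mem (W.inv_mem hw) hu) hw) (d4cn hi w hu')
          rw [d4v1 x hu', d4v2 hi x τ hu', h u hu hu', h3, mul_one, mul_one]
          exact ⟨rfl, rfl⟩
        · have h4 : w⁻¹ * u ∈ A := d4ti hi hw' hu'
          have h5 : ζ (τ⁻¹ * u) = ζ (τ⁻¹ * w) := by
            have h6 : τ⁻¹ * u = (τ⁻¹ * w) * (w⁻¹ * u) := by group
            rw [h6, hζ _ (d4ti hi hτ hw') _ h4, h _ (W.mul_mem (W.inv_mem hw) hu) h4, mul_one]
          have h7 : ζ (u * τ) = ζ (τ⁻¹ * w) := by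
            have h8 : ζ (u * τ) * ζ (τ⁻¹ * w) = 1 := by
              rw [← hζ _ (d4gt hi hτ hu') _ (d4ti hi hτ hw')]
              have h9 : u * τ * (τ⁻¹ * w) = u * w := by group
              rw [h9]
              exact h _ (W.mul_mem hu hw) (d4gt hi hw' hu')
            exact mul_right_cancel (h8.trans (d4sq _).symm)
          rw [d4v3 hi x hτ hu', d4v4 hi x hτ hu', h5, h7, hx.1, hx.2, mul_assoc, d4sq, mul_one]
          exact ⟨rfl, rfl⟩
    rw [h2, Nat.card_eq_fintype_card]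
    rfl
  · have h1 : fx (D4X A ζ) W = ∅ := by
      ext x
      simp only [Set.mem_empty_iff_false, iff_false]
      intro hx
      rw [d4fx hi hζ hτ] at hx
      apply h
      intro u hu hu'
      have h2 := (hx u hu).1
      rw [d4v1 x hu'] at h2
      exact d4self h2
    rw [h1]
    simp

private theorem d4krk {N : Γ → ℤˣ} (hN : Mulp (⊤ : Subgroup Γ) N) (hn : ¬ Tr ⊤ N) :
    (kr ⊤ N).index = 2 := by
  have h1 : kr ⊤ N = (MonoidHom.mk' N fun a b => hN a trivial b trivial).ker := by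
    ext g
    rw [mem_kr hN, MonoidHom.mem_ker]
    exact ⟨fun h => h.2, fun h => ⟨trivial, h⟩⟩
  rw [h1, Subgroup.index_ker]
  have h2 : (MonoidHom.mk' N fun a b => hN a trivial b trivial).range = ⊤ := by
    rw [MonoidHom.range_eq_top]
    intro s
    rcases Int.units_eq_one_or s with h | h
    · exact ⟨1, by rw [map_one, h]⟩
    · unfold Tr at hn
      push Not at hn
      obtain ⟨g, -, hg⟩ := hn
      refine ⟨g, ?_⟩
      rw [h]
      exact (Int.units_eq_one_or (N g)).resolve_left hg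
  rw [h2, Nat.card_congr Subgroup.topEquiv.toEquiv, Nat.card_eq_fintype_card]
  rfl

open Classical in
private theorem d4pq {A : Subgroup Γ} (hi : A.index = 2) {ζ : Γ → ℤˣ} (hζ : Mulp A ζ)
    {τ : Γ} (hτ : τ ∉ A) (W : Subgroup Γ) : pq A ζ W = if W ≤ A then
      (if ∀ u ∈ W, ζ u = 1 then 2 else 0) + (if ∀ u ∈ W, ζ (τ⁻¹ * u * τ) = 1 then 2 else 0)
      else 0 := by
  have hA : A.Normal := Subgroup.normal_of_index_eq_two hi
  have : A.FiniteIndex := ⟨by rw [hi]; norm_num⟩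
  have : Finite (Γ ⧸ A) := Subgroup.finite_quotient_of_finiteIndex
  let _ := Fintype.ofFinite (Γ ⧸ A)
  have h0 : pq A ζ W = ∑ x : Γ ⧸ A, if cj x.out W ≤ A then
      tw A ζ ((cj x.out W).subgroupOf A) else 0 := by
    rw [pq_eq A hζ]
    rfl
  have h1 : ∀ g : Γ, cj g W ≤ A ↔ W ≤ A := by
    intro g
    constructor
    · intro h u hu
      have h2 := hA.conj_mem _ (h (mem_cj hu)) g
      have h3 : g * (g⁻¹ * u * g) * g⁻¹ = u := by group
      rwa [h3] at h2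
    · intro h u hu
      obtain ⟨v, hv, rfl⟩ := mem_cj_iff.1 hu
      exact d4cn hi g (h hv)
  rw [h0]
  by_cases hW : W ≤ A
  · rw [if_pos hW]
    have h2 : ∀ x : Γ ⧸ A, (if cj x.out W ≤ A then tw A ζ ((cj x.out W).subgroupOf A) else 0) =
        if ∀ u ∈ W, ζ (x.out⁻¹ * u * x.out) = 1 then 2 else 0 := by
      intro x
      rw [if_pos ((h1 _).2 hW)]
      unfold tw
      congr 1
      apply propext
      constructor
      · intro h u hu
        exact h ⟨x.out⁻¹ * u * x.out, d4cn hi _ (hW hu)⟩ (Subgroup.mem_subgroupOf.2 (mem_cj hu))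
      · intro h u hu
        obtain ⟨v, hv, hv'⟩ := mem_cj_iff.1 (Subgroup.mem_subgroupOf.1 hu)
        rw [← hv']
        exact h v hv
    rw [Finset.sum_congr rfl fun x _ => h2 x]
    have h3 : (Finset.univ : Finset (Γ ⧸ A)) = {((1 : Γ) : Γ ⧸ A), ((τ : Γ) : Γ ⧸ A)} := by
      ext x
      simp only [Finset.mem_univ, Finset.mem_insert, Finset.mem_singleton, true_iff]
      induction x using QuotientGroup.induction_on with
      | H g =>
        by_cases hg : g ∈ A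
        · left
          rw [QuotientGroup.eq, mul_one]
          exact A.inv_mem hg
        · right
          rw [QuotientGroup.eq]
          exact d4ti hi hg hτ
    have h4 : ((1 : Γ) : Γ ⧸ A) ≠ ((τ : Γ) : Γ ⧸ A) := by
      intro h
      rw [QuotientGroup.eq, inv_one, one_mul] at h
      exact hτ h
    rw [h3, Finset.sum_pair h4]
    have h5 : (((1 : Γ) : Γ ⧸ A)).out ∈ A := by
      have h6 : ((((1 : Γ) : Γ ⧸ A)).out : Γ ⧸ A) = ((1 : Γ) : Γ ⧸ A) := QuotientGroup.out_eq' _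
      rw [QuotientGroup.eq, mul_one] at h6
      exact A.inv_mem_iff.1 h6
    have h7 : (((τ : Γ) : Γ ⧸ A)).out ∉ A := by
      intro h
      have h6 : ((((τ : Γ) : Γ ⧸ A)).out : Γ ⧸ A) = ((τ : Γ) : Γ ⧸ A) := QuotientGroup.out_eq' _
      rw [QuotientGroup.eq] at h6
      exact hτ (((d4mem hi).1 h6).1 (A.inv_mem h))
    congr 1
    · congr 1
      apply propext
      exact forall₂_congr fun u hu => by rw [d4conj' hζ h5 (hW hu)]
    · congr 1
      apply propext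
      exact forall₂_congr fun u hu => by rw [d4conj hi hζ hτ h7 (hW hu)]
  · rw [if_neg hW]
    refine Finset.sum_eq_zero fun x _ => ?_
    rw [if_neg fun h => hW ((h1 _).1 h)]


private theorem d4cy {A : Subgroup Γ} {χ : Γ → ℤˣ} (hχ : Mulp A χ) {w : Γ}
    (hw : Subgroup.zpowers w ≤ A) : (∀ u ∈ Subgroup.zpowers w, χ u = 1) ↔ χ w = 1 := by
  have hwA : w ∈ A := hw (Subgroup.mem_zpowers w)
  constructor
  · intro h
    exact h w (Subgroup.mem_zpowers w)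
  · intro h u hu
    have h1 : Subgroup.zpowers w ≤ kr A χ := by
      rw [Subgroup.zpowers_le, mem_kr hχ]
      exact ⟨hwA, h⟩
    exact ((mem_kr hχ).1 (h1 hu)).2

private theorem d4tw {A : Subgroup Γ} (hi : A.index = 2) {ζ : Γ → ℤˣ} (hζ : Mulp A ζ) (τ : Γ) :
    Mulp A (fun u => ζ (τ⁻¹ * u * τ)) := by
  intro a ha b hb
  change ζ (τ⁻¹ * (a * b) * τ) = ζ (τ⁻¹ * a * τ) * ζ (τ⁻¹ * b * τ)
  rw [← hζ _ (d4cn hi τ ha) _ (d4cn hi τ hb)]
  congr 1
  group

private theorem d4N {A : Subgroup Γ} (hi : A.index = 2) {ζ : Γ → ℤˣ} (hζ : Mulp A ζ)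
    {τ : Γ} (hτ : τ ∉ A) : Mulp ⊤ (nm A τ ζ) :=
  nm_mulp le_top (by rw [Subgroup.relIndex_top_right, hi]) trivial hτ hζ

open Classical in
private theorem d4id {A : Subgroup Γ} (hi : A.index = 2) {ζ : Γ → ℤˣ} (hζ : Mulp A ζ)
    {τ : Γ} (hτ : τ ∉ A) (hn : ¬ Tr ⊤ (nm A τ ζ)) {W : Subgroup Γ}
    (hW : Cyc W ∨ ∀ u ∈ W, u ∈ A → ζ u = 1 ∧ ζ (τ⁻¹ * u * τ) = 1) :
    pch Γ (D4X A ζ) W + pc A W = pq A ζ W + pc (kr ⊤ (nm A τ ζ)) W := by
  have hN := d4N hi hζ hτ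
  have hK := d4krk hN hn
  have hA : A.Normal := Subgroup.normal_of_index_eq_two hi
  have hKn : (kr ⊤ (nm A τ ζ)).Normal := Subgroup.normal_of_index_eq_two hK
  rw [pc_normal A, pc_normal (kr ⊤ (nm A τ ζ)), hi, hK, d4pq hi hζ hτ]
  by_cases hWA : W ≤ A
  · rw [if_pos hWA, if_pos hWA, d4pA hi hζ hτ hWA]
    have hc : W ≤ kr ⊤ (nm A τ ζ) ↔ ∀ u ∈ W, ζ u * ζ (τ⁻¹ * u * τ) = 1 := by
      constructor
      · intro h u hu
        rw [← d4nm1 hi hζ hτ (hWA hu)]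
        exact ((mem_kr hN).1 (h hu)).2
      · intro h u hu
        rw [mem_kr hN, d4nm1 hi hζ hτ (hWA hu)]
        exact ⟨trivial, h u hu⟩
    rcases hW with ⟨w, rfl⟩ | hW
    · have ha := d4cy hζ hWA
      have hb := d4cy (d4tw hi hζ τ) hWA
      have hd := d4cy (hζ.mul (d4tw hi hζ τ)) hWA
      have hb' : (∀ u ∈ Subgroup.zpowers w, ζ (τ⁻¹ * u * τ) = 1) ↔ ζ (τ⁻¹ * w * τ) = 1 := hb
      have hd' : (∀ u ∈ Subgroup.zpowers w, ζ u * ζ (τ⁻¹ * u * τ) = 1) ↔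
          ζ w * ζ (τ⁻¹ * w * τ) = 1 := hd
      rw [hc, ha, hb', hd']
      have hm : (-1 : ℤˣ) ≠ 1 := by decide
      rcases Int.units_eq_one_or (ζ w) with h1 | h1 <;>
        rcases Int.units_eq_one_or (ζ (τ⁻¹ * w * τ)) with h2 | h2 <;> rw [h1, h2] <;>
        norm_num [hm]
    · rw [if_pos ⟨fun u hu => (hW u hu (hWA hu)).1, fun u hu => (hW u hu (hWA hu)).2⟩,
        if_pos fun u hu => (hW u hu (hWA hu)).1, if_pos fun u hu => (hW u hu (hWA hu)).2,
        if_pos (hc.2 fun u hu => by rw [(hW u hu (hWA hu)).1, (hW u hu (hWA hu)).2, mul_one])]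
      norm_num
  · rw [if_neg hWA, if_neg hWA]
    obtain ⟨w, hw, hw'⟩ := SetLike.not_le_iff_exists.1 hWA
    rw [d4pB hi hζ hτ hw hw', add_zero, zero_add]
    have hc : (∀ u ∈ W, u ∈ A → ζ u = 1) ↔ W ≤ kr ⊤ (nm A τ ζ) := by
      rcases hW with ⟨g, rfl⟩ | hW
      · have hg : g ∉ A := fun h => hWA (by rwa [Subgroup.zpowers_le])
        have hgg : g * g ∈ A := d4gt hi hg hg
        rw [Subgroup.zpowers_le, mem_kr hN, d4nm2 hg]
        constructor
        · intro h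
          exact ⟨trivial, h _ (Subgroup.mul_mem _ (Subgroup.mem_zpowers g)
            (Subgroup.mem_zpowers g)) hgg⟩
        · rintro ⟨-, h⟩ u hu hu'
          have h1 : ∀ j : ℤ, (g * g) ^ j ∈ kr A ζ := fun j =>
            Subgroup.zpow_mem _ ((mem_kr hζ).2 ⟨hgg, h⟩) j
          obtain ⟨k, rfl⟩ := Subgroup.mem_zpowers_iff.1 hu
          obtain ⟨j, hj | hj⟩ := Int.even_or_odd' k
          · have h2 : g ^ k = (g * g) ^ j := by
              rw [hj, zpow_mul, zpow_two]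
            rw [h2]
            exact ((mem_kr hζ).1 (h1 j)).2
          · exfalso
            have h2 : g ^ k = (g * g) ^ j * g := by
              rw [hj, zpow_add_one, zpow_mul, zpow_two]
            rw [h2] at hu'
            exact hg (((d4mem hi).1 hu').1 ((mem_kr hζ).1 (h1 j)).1)
      · constructor
        · intro _ u hu
          rw [mem_kr hN]
          refine ⟨trivial, ?_⟩
          by_cases hu' : u ∈ A
          · rw [d4nm1 hi hζ hτ hu', (hW u hu hu').1, (hW u hu hu').2, mul_one]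
          · rw [d4nm2 hu']
            exact (hW _ (W.mul_mem hu hu) (d4gt hi hu' hu')).1
        · intro _ u hu hu'
          exact (hW u hu hu').1
    by_cases h : ∀ u ∈ W, u ∈ A → ζ u = 1
    · rw [if_pos h, if_pos (hc.1 h)]
      rfl
    · rw [if_neg h, if_neg fun h1 => h (hc.2 h1)]

/-- the opposite section -/
private def d4neg {A : Subgroup Γ} {ζ : Γ → ℤˣ} (x : D4X A ζ) : D4X A ζ :=
  ⟨fun g => -x.v g, fun g h hh => by rw [x.q g h hh, neg_mul]⟩

private theorem d4smneg {A : Subgroup Γ} {ζ : Γ → ℤˣ} (k : Γ) (x : D4X A ζ) :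
    k • d4neg x = d4neg (k • x) := rfl

private theorem d4two {A : Subgroup Γ} (hi : A.index = 2) {ζ : Γ → ℤˣ} (hζ : Mulp A ζ)
    {τ : Γ} (hτ : τ ∉ A) {x y : D4X A ζ} (h : x.v 1 * x.v τ = y.v 1 * y.v τ) :
    y = x ∨ y = d4neg x := by
  have h1 : ∀ a b c d : ℤˣ, a * b = c * d → (c = a ∧ d = b) ∨ (c = -a ∧ d = -b) := by decide
  rcases h1 _ _ _ _ h with ⟨h2, h3⟩ | ⟨h2, h3⟩
  · exact Or.inl (d4ext hi hζ hτ h2 h3)
  · exact Or.inr (d4ext hi hζ hτ h2 h3)

private theorem d4st {A : Subgroup Γ} (hi : A.index = 2) {ζ : Γ → ℤˣ} (hζ : Mulp A ζ)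
    {τ : Γ} (hτ : τ ∉ A) (hn : ¬ Tr ⊤ (nm A τ ζ)) :
    pch Γ (D4X A ζ) = (2 : ℤ) • pc (kr ⊤ (nm A τ ζ)) ∨
    ∃ L : Subgroup Γ, L ≤ kr ⊤ (nm A τ ζ) ∧ L.relIndex (kr ⊤ (nm A τ ζ)) = 2 ∧
      (∀ u ∈ A, ζ u = 1 → ζ (τ⁻¹ * u * τ) = 1 → u ∈ L) ∧ pch Γ (D4X A ζ) = pc L := by
  classical
  have hN := d4N hi hζ hτ
  have hK := d4krk hN hn
  have hKn : (kr ⊤ (nm A τ ζ)).Normal := Subgroup.normal_of_index_eq_two hK
  have hp : ∀ (k : Γ) (x : D4X A ζ), (k • x).v 1 * (k • x).v τ =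
      nm A τ ζ k * (x.v 1 * x.v τ) := fun k x => d4prod hi hζ hτ k x
  have hst : ∀ (k : Γ) (x : D4X A ζ), k • x = x → k ∈ kr ⊤ (nm A τ ζ) := by
    intro k x h
    have h1 := hp k x
    rw [h] at h1
    rw [mem_kr hN]
    exact ⟨trivial, (right_eq_mul.1 h1)⟩
  obtain ⟨h0, hh0⟩ : ∃ h, nm A τ ζ h = -1 := by
    unfold Tr at hn
    push Not at hn
    obtain ⟨g, -, hg⟩ := hn
    exact ⟨g, (Int.units_eq_one_or _).resolve_left hg⟩
  have hh0' : nm A τ ζ h0⁻¹ = -1 := by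
    have h1 : nm A τ ζ h0 * nm A τ ζ h0⁻¹ = 1 := by
      rw [← hN _ trivial _ trivial, mul_inv_cancel, hN.one]
    rw [hh0] at h1
    revert h1
    generalize nm A τ ζ h0⁻¹ = z
    revert z
    decide
  let x0 : D4X A ζ := (d4e hi hζ hτ).symm (1, 1)
  have hx0 : x0.v 1 * x0.v τ = 1 := by
    have h1 : d4e hi hζ hτ x0 = (1, 1) := Equiv.apply_symm_apply _ _
    rw [d4e_apply, Prod.mk.injEq] at h1
    rw [h1.1, h1.2, mul_one]
  -- every section is in one of the two forms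
  have hall : ∀ y : D4X A ζ, ∃ g : Γ, y = g • x0 ∨ y = g • d4neg x0 := by
    intro y
    rcases Int.units_eq_one_or (y.v 1 * y.v τ) with h | h
    · refine ⟨1, ?_⟩
      rw [one_smul, one_smul]
      exact d4two hi hζ hτ (hx0.trans h.symm)
    · refine ⟨h0, ?_⟩
      have h1 : x0.v 1 * x0.v τ = (h0⁻¹ • y).v 1 * (h0⁻¹ • y).v τ := by
        rw [hp, hh0', h, hx0]
        decide
      rcases d4two hi hζ hτ h1 with h2 | h2
      · left
        rw [← h2, smul_inv_smul]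
      · right
        rw [← h2, smul_inv_smul]
  by_cases hK0 : ∀ k ∈ kr ⊤ (nm A τ ζ), k • x0 = x0
  · left
    have hK1 : ∀ k ∈ kr ⊤ (nm A τ ζ), ∀ y : D4X A ζ, k • y = y := by
      intro k hk y
      obtain ⟨g, hg⟩ := hall y
      have h1 : g⁻¹ * k * g ∈ kr ⊤ (nm A τ ζ) := by
        have := hKn.conj_mem k hk g⁻¹
        rwa [inv_inv] at this
      have h2 : k * g = g * (g⁻¹ * k * g) := by group
      rcases hg with rfl | rfl
      · rw [← mul_smul, h2, mul_smul, hK0 _ h1]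
      · rw [← mul_smul, h2, mul_smul, d4smneg, hK0 _ h1]
    funext W
    rw [Pi.smul_apply, pc_normal, hK]
    unfold pch
    split_ifs with hW
    · have h1 : fx (D4X A ζ) W = Set.univ := by
        ext x
        simp only [Set.mem_univ, iff_true]
        exact fun u hu => hK1 u (hW hu) x
      rw [h1, Nat.card_coe_set_eq, Set.ncard_univ, d4card hi hζ hτ]
      rfl
    · have h1 : fx (D4X A ζ) W = ∅ := by
        ext x
        simp only [Set.mem_empty_iff_false, iff_false]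
        intro hx
        exact hW fun u hu => hst u x (hx u hu)
      rw [h1]
      simp
  · right
    push Not at hK0
    obtain ⟨k0, hk0, hk0'⟩ := hK0
    have hneg : k0 • x0 = d4neg x0 := by
      have h1 : x0.v 1 * x0.v τ = (k0 • x0).v 1 * (k0 • x0).v τ := by
        rw [hp, ((mem_kr hN).1 hk0).2, one_mul]
      exact (d4two hi hζ hτ h1).resolve_left hk0'
    have htr : ∀ y : D4X A ζ, ∃ g : Γ, g • x0 = y := by
      intro y
      obtain ⟨g, rfl | rfl⟩ := hall y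
      · exact ⟨g, rfl⟩
      · exact ⟨g * k0, by rw [mul_smul, hneg]⟩
    have hpc : pch Γ (D4X A ζ) = pc (stabilizer Γ x0) := by
      symm
      unfold pc
      refine pch_congr (Equiv.ofBijective (ofQuotientStabilizer Γ x0) ⟨?_, ?_⟩) ?_
      · exact injective_ofQuotientStabilizer Γ x0
      · intro y
        obtain ⟨g, hg⟩ := htr y
        exact ⟨((g : Γ) : Γ ⧸ stabilizer Γ x0), hg⟩
      · intro g q
        exact ofQuotientStabilizer_smul Γ x0 g q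
    have hL : stabilizer Γ x0 ≤ kr ⊤ (nm A τ ζ) := fun g hg => hst g x0 hg
    refine ⟨stabilizer Γ x0, hL, ?_, ?_, hpc⟩
    · have h1 := congrFun hpc ⊥
      rw [pc_bot, pch_bot, d4card hi hζ hτ] at h1
      have h2 : (stabilizer Γ x0).index = 4 := by exact_mod_cast h1.symm
      have h3 := Subgroup.relIndex_mul_index hL
      rw [hK, h2] at h3
      omega
    · intro u hu h1 h2
      rw [← (stabilizer Γ x0).inv_mem_iff]
      refine d4ext hi hζ hτ ?_ ?_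
      · rw [d4smul, inv_inv, mul_one, d4v1 x0 hu, h1, mul_one]
      · rw [d4smul, inv_inv, d4v2 hi x0 τ hu, h2, mul_one]

end abs

section transfer

variable {G : Type} [Group G]

private theorem d4fq {H : Subgroup G} {K : Subgroup G} [K.FiniteIndex] :
    Finite (H ⧸ K.subgroupOf H) := Subgroup.finite_quotient_of_finiteIndex

private theorem d4map {H K : Subgroup G} (h : K ≤ H) : (K.subgroupOf H).map H.subtype = K := by
  rw [Subgroup.subgroupOf_map_subtype, inf_eq_left.2 h]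

private theorem d4mu {H H' : Subgroup G} {ζ : G → ℤˣ} (hζ : Mulp H' ζ) :
    Mulp (H'.subgroupOf H) (fun h : H => ζ h) :=
  fun _ ha _ hb => hζ _ (Subgroup.mem_subgroupOf.1 ha) _ (Subgroup.mem_subgroupOf.1 hb)

private theorem d4pqt {H H' : Subgroup G} [Finite (G ⧸ H)] [H'.FiniteIndex] (hle : H' ≤ H)
    {ζ : G → ℤˣ} (hζ : Mulp H' ζ) [(kr H' ζ).FiniteIndex] :
    iH H (pq (H'.subgroupOf H) (fun h : H => ζ h)) = pq H' ζ := by
  have hz := d4mu (H := H) hζ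
  have hT : Tr (H'.subgroupOf H) (fun h : H => ζ h) ↔ Tr H' ζ := by
    constructor
    · intro h g hg
      exact h ⟨g, hle hg⟩ (Subgroup.mem_subgroupOf.2 hg)
    · intro h g hg
      exact h g (Subgroup.mem_subgroupOf.1 hg)
  unfold pq
  by_cases h : Tr H' ζ
  · have := d4fq (H := H) (K := H')
    rw [if_pos h, if_pos (hT.2 h), map_zsmul, iH_pc, d4map hle]
  · have hk : kr (H'.subgroupOf H) (fun h : H => ζ h) = (kr H' ζ).subgroupOf H := by
      ext g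
      rw [mem_kr hz, Subgroup.mem_subgroupOf, Subgroup.mem_subgroupOf, mem_kr hζ]
    have := d4fq (H := H) (K := kr H' ζ)
    rw [if_neg h, if_neg fun h1 => h (hT.1 h1), hk, iH_pc, d4map ((kr_le _ _).trans hle)]

end transfer

private theorem d4iH {G : Type} [Group G] (H : Subgroup G) [Finite (G ⧸ H)]
    {F F' : Subgroup H → ℤ} {U : Subgroup G}
    (h : ∀ x : G, cj x U ≤ H → F ((cj x U).subgroupOf H) = F' ((cj x U).subgroupOf H)) :
    iH H F U = iH H F' U := by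
  classical
  let _ := Fintype.ofFinite (G ⧸ H)
  change (∑ x : G ⧸ H, if cj x.out U ≤ H then F ((cj x.out U).subgroupOf H) else 0) =
    ∑ x : G ⧸ H, if cj x.out U ≤ H then F' ((cj x.out U).subgroupOf H) else 0
  refine Finset.sum_congr rfl fun x _ => ?_
  split_ifs with hx
  · exact h _ hx
  · rfl

private theorem d4cjo {J : Subgroup GQ} (hJ : IsOpen (J : Set GQ)) (a : GQ) :
    IsOpen (cj a J : Set GQ) := by
  have h1 : (cj a J : Set GQ) = (fun g => a * g * a⁻¹) ⁻¹' (J : Set GQ) := by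
    ext g
    rw [SetLike.mem_coe, mem_cj_iff, Set.mem_preimage, SetLike.mem_coe]
    constructor
    · rintro ⟨u, hu, rfl⟩
      have h2 : a * (a⁻¹ * u * a) * a⁻¹ = u := by group
      rwa [h2]
    · intro h
      exact ⟨_, h, by group⟩
  rw [h1]
  exact hJ.preimage ((continuous_const.mul continuous_id).mul continuous_const)

theorem d4 {T : Finset ℕ} {H H' : Subgroup GQ} (hH : IsOpen (H : Set GQ))
    (hH' : IsOpen (H' : Set GQ)) (hle : H' ≤ H) (hi : H'.relIndex H = 2) {τ : GQ} (hτ : τ ∈ H)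
    (hτ' : τ ∉ H') {ζ : GQ → ℤˣ} (hζ : IsChr H' ζ) (hT : TTr T H' ζ)
    (hn : ¬ Tr H (nm H' τ ζ)) : ∃ f : Subgroup GQ → ℤ,
      (f = (2 : ℤ) • pc (kr H (nm H' τ ζ)) ∨ ∃ L : Subgroup GQ, IsOpen (L : Set GQ) ∧
        L ≤ kr H (nm H' τ ζ) ∧ L.relIndex (kr H (nm H' τ ζ)) = 2 ∧ f = pc L) ∧
      ∀ U ∈ famT T, f U + pc H' U = pq H' ζ U + pc (kr H (nm H' τ ζ)) U := by
  classical
  have hnice := nice_rat T
  have : Finite (GQ ⧸ H) := hnice.fin hH
  have : H'.FiniteIndex := hnice.finiteIndex hH'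
  have : (kr H' ζ).FiniteIndex := hnice.finiteIndex hζ.2
  have hNc := nm_chr hH' hle hi hτ hτ' hζ
  have : (kr H (nm H' τ ζ)).FiniteIndex := hnice.finiteIndex hNc.2
  -- the group `H`
  let A : Subgroup H := H'.subgroupOf H
  let ζ' : H → ℤˣ := fun h => ζ h
  let τ' : H := ⟨τ, hτ⟩
  have hA : A.index = 2 := hi
  have hz : Mulp A ζ' := d4mu hζ.1
  have ht : τ' ∉ A := fun h => hτ' (Subgroup.mem_subgroupOf.1 h)
  have hnm : ∀ h : H, nm A τ' ζ' h = nm H' τ ζ h := by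
    intro h
    unfold nm
    by_cases h1 : (h : GQ) ∈ H'
    · rw [if_pos h1, if_pos (Subgroup.mem_subgroupOf.2 h1)]
      rfl
    · rw [if_neg h1, if_neg fun h2 => h1 (Subgroup.mem_subgroupOf.1 h2)]
      rfl
  have hn' : ¬ Tr ⊤ (nm A τ' ζ') := by
    intro h
    apply hn
    intro g hg
    rw [← hnm ⟨g, hg⟩]
    exact h _ trivial
  have hN := d4N hA hz ht
  have hkr : kr ⊤ (nm A τ' ζ') = (kr H (nm H' τ ζ)).subgroupOf H := by
    ext g
    rw [mem_kr hN, Subgroup.mem_subgroupOf, mem_kr hNc.1, hnm]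
    exact ⟨fun h => ⟨g.2, h.2⟩, fun h => ⟨trivial, h.2⟩⟩
  have hfA : Finite (H ⧸ A) := d4fq
  have hfK : Finite (H ⧸ kr ⊤ (nm A τ' ζ')) := by
    rw [hkr]
    exact d4fq
  have hK1 : iH H (pc (kr ⊤ (nm A τ' ζ'))) = pc (kr H (nm H' τ ζ)) := by
    rw [iH_pc, hkr, d4map (kr_le _ _)]
  have hA1 : iH H (pc A) = pc H' := by
    rw [iH_pc]
    exact congrArg pc (d4map hle)
  refine ⟨iH H (pch H (D4X A ζ')), ?_, ?_⟩
  · rcases d4st hA hz ht hn' with h | ⟨L, hL, hL2, hLo, h⟩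
    · left
      rw [h, map_zsmul, hK1]
    · right
      have hKi := d4krk hN hn'
      have hLi : L.index = 4 := by
        rw [← Subgroup.relIndex_mul_index hL, hL2, hKi]
      have : L.FiniteIndex := ⟨by rw [hLi]; norm_num⟩
      have : Finite (H ⧸ L) := Subgroup.finite_quotient_of_finiteIndex
      have hle2 : L.map H.subtype ≤ kr H (nm H' τ ζ) := by
        rintro x ⟨l, hl, rfl⟩
        have h1 := hL hl
        rw [hkr, Subgroup.mem_subgroupOf] at h1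
        exact h1
      refine ⟨L.map H.subtype, ?_, hle2, ?_, ?_⟩
      · refine Subgroup.isOpen_mono (H₁ := kr H' ζ ⊓ cj τ⁻¹ (kr H' ζ)) ?_ ?_
        · rintro g ⟨h1, h2⟩
          obtain ⟨h3, h4⟩ := (mem_kr hζ.1).1 h1
          obtain ⟨u, hu, hu'⟩ := mem_cj_iff.1 h2
          obtain ⟨h5, h6⟩ := (mem_kr hζ.1).1 hu
          refine ⟨⟨g, hle h3⟩, hLo _ (Subgroup.mem_subgroupOf.2 h3) h4 ?_, rfl⟩
          change ζ (τ⁻¹ * g * τ) = 1
          rw [← hu', inv_inv]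
          have h7 : τ⁻¹ * (τ * u * τ⁻¹) * τ = u := by group
          rw [h7, h6]
        · rw [Subgroup.coe_inf]
          exact hζ.2.inter (d4cjo hζ.2 _)
      · have h1 : (kr ⊤ (nm A τ' ζ')).map H.subtype = kr H (nm H' τ ζ) := by
          rw [hkr, d4map (kr_le _ _)]
        rw [← h1, Subgroup.relIndex_map_map_of_injective _ _ H.subtype_injective, hL2]
      · rw [h, iH_pc]
  · intro U hU
    have h1 : iH H (pch H (D4X A ζ') + pc A) U =
        iH H (pq A ζ' + pc (kr ⊤ (nm A τ' ζ'))) U := by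
      refine d4iH H fun x hx => ?_
      rw [Pi.add_apply, Pi.add_apply]
      refine d4id hA hz ht hn' ?_
      have hU' := hnice.conj U hU x
      rcases hU' with ⟨g, hg⟩ | ⟨l, hl, a, hlT, ha⟩
      · left
        have hgH : g ∈ H := hx (by rw [hg]; exact Subgroup.mem_zpowers g)
        refine ⟨⟨g, hgH⟩, ?_⟩
        apply Subgroup.map_injective H.subtype_injective
        rw [d4map hx, MonoidHom.map_zpowers, hg]
        rfl
      · right
        intro u hu huA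
        have hu1 : (u : GQ) ∈ cj x U := Subgroup.mem_subgroupOf.1 hu
        have hu2 : (u : GQ) ∈ H' := Subgroup.mem_subgroupOf.1 huA
        have hu3 : a⁻¹ * (u : GQ) * a ∈ decomp ℚ_[l] (emb l) := ha (mem_cj hu1)
        constructor
        · refine hT (@Pl.mk l hl a) hlT _ ?_ hu2
          refine mem_cj_iff.2 ⟨_, hu3, ?_⟩
          change (a⁻¹)⁻¹ * (a⁻¹ * (u : GQ) * a) * a⁻¹ = u
          group
        · refine hT (@Pl.mk l hl (τ⁻¹ * a)) hlT _ ?_ ?_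
          · refine mem_cj_iff.2 ⟨_, hu3, ?_⟩
            change ((τ⁻¹ * a)⁻¹)⁻¹ * (a⁻¹ * (u : GQ) * a) * (τ⁻¹ * a)⁻¹ = τ⁻¹ * (u : GQ) * τ
            group
          · exact Subgroup.mem_subgroupOf.1 (d4cn hA τ' huA)
    rw [map_add, map_add, Pi.add_apply, Pi.add_apply, hK1, hA1, d4pqt hle hζ.1] at h1
    exact h1

end Pool.Agent.GJ
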