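import Pool.Agent.GJ.Bas

/-!
# GJ/R-Ind: marks of double covers as induced functions

The marks of the double cover of `G ⧸ K` given by a quadratic character of a group `H` containing
`K` are induced from `pc K * tw H χ`; the values at cyclic subgroups and at decomposition groups.
-/

namespace Pool.Agent.GJ

open MulAction Pool.Agent.H73.DU Pool.Agent.H73.AL Pool.Agent.LD Pool.Agent.TS

variable {G : Type} [Group G]

theorem iH_pc (H : Subgroup G) [Finite (G ⧸ H)] (K : Subgroup H) [Finite (H ⧸ K)] :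
    iH H (pc K) = pc (K.map H.subtype) := by
  let _ := Fintype.ofFinite (G ⧸ H)
  exact ind_pc H K

theorem iH_one (H : Subgroup G) [Finite (G ⧸ H)] : iH H 1 = pc H := by
  let _ := Fintype.ofFinite (G ⧸ H)
  exact ind_one H

/-- the homomorphism on `H` given by a multiplicative function -/
private def Ind_hom {H : Subgroup G} {χ : G → ℤˣ} (hχ : Mulp H χ) : H →* ℤˣ where
  toFun h := χ h
  map_one' := hχ.one
  map_mul' a b := hχ a a.2 b b.2

private theorem Ind_hom_apply {H : Subgroup G} {χ : G → ℤˣ} (hχ : Mulp H χ) (h : H) :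
    Ind_hom hχ h = χ h := rfl

/-- a fixed point of `U` in `A ⧸ K` -/
private theorem Ind_fixed {A : Type} [Group A] (K U : Subgroup A) (a : A) :
    (a : A ⧸ K) ∈ fx (A ⧸ K) U ↔ ∀ u ∈ U, a⁻¹ * u * a ∈ K := by
  rw [mem_fx]
  refine forall₂_congr fun u _ => ?_
  have h1 : u • (a : A ⧸ K) = ((u * a : A) : A ⧸ K) := rfl
  rw [h1, QuotientGroup.eq]
  have h2 : a⁻¹ * u * a = ((u * a)⁻¹ * a)⁻¹ := by group
  rw [h2, K.inv_mem_iff]

private theorem Ind_sgn (x : ℤˣ) (h : x ≠ 1) : x = -1 := by
  rcases Int.units_eq_one_or x with h1 | h1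
  · exact absurd h1 h
  · exact h1

open Classical in
/-- the case of a character that is trivial on `K` -/
private theorem Ind_triv {A : Type} [Group A] (ψ : A →* ℤˣ) (K : Subgroup A)
    (h : ∀ k ∈ K, ψ k = 1) :
    (pc K * fun U : Subgroup A => if ∀ u ∈ U, ψ u = 1 then (2 : ℤ) else 0) = (2 : ℤ) • pc K := by
  funext U
  rw [Pi.mul_apply, Pi.smul_apply, smul_eq_mul]
  split_ifs with hU
  · exact mul_comm _ _
  · have h0 : pc K U = 0 := by
      unfold pc pch
      rw [Nat.cast_eq_zero, Nat.card_eq_zero]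
      left
      refine ⟨fun z => hU ?_⟩
      obtain ⟨z, hz⟩ := z
      induction z using QuotientGroup.induction_on with
      | H a =>
        intro u hu
        have h1 := h _ ((Ind_fixed K U a).1 hz u hu)
        rw [map_mul, map_mul, map_inv, mul_right_comm, inv_mul_cancel, one_mul] at h1
        exact h1
    rw [h0, mul_zero, mul_zero]

open Classical in
/-- the case of a character that is not trivial on `K` -/
private theorem Ind_nontriv {A : Type} [Group A] (ψ : A →* ℤˣ) (K : Subgroup A) (k : A)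
    (hk : k ∈ K) (hk1 : ψ k ≠ 1) :
    (pc K * fun U : Subgroup A => if ∀ u ∈ U, ψ u = 1 then (2 : ℤ) else 0) =
      pc (K ⊓ ψ.ker) := by
  have hkm : ψ k = -1 := Ind_sgn _ hk1
  funext U
  rw [Pi.mul_apply]
  split_ifs with hU
  · -- the equivalence
    let f : A ⧸ (K ⊓ ψ.ker) → (A ⧸ K) × ℤˣ := Quotient.lift (fun a : A => ((a : A ⧸ K), ψ a)) (by
      intro a b hab
      have h1 : a⁻¹ * b ∈ K ⊓ ψ.ker := QuotientGroup.leftRel_apply.1 hab
      rw [Subgroup.mem_inf, MonoidHom.mem_ker, map_mul, map_inv] at h1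
      refine Prod.ext (QuotientGroup.eq.2 h1.1) ?_
      exact inv_mul_eq_one.1 h1.2)
    have hf : ∀ a : A, f (a : A ⧸ (K ⊓ ψ.ker)) = ((a : A ⧸ K), ψ a) := fun a => rfl
    have hbij : Function.Bijective f := by
      constructor
      · intro x y
        induction x using QuotientGroup.induction_on with
        | H a =>
          induction y using QuotientGroup.induction_on with
          | H b =>
            intro hab
            rw [hf, hf, Prod.mk.injEq, QuotientGroup.eq] at hab
            rw [QuotientGroup.eq, Subgroup.mem_inf, MonoidHom.mem_ker, map_mul, map_inv]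
            exact ⟨hab.1, inv_mul_eq_one.2 hab.2⟩
      · rintro ⟨y, e⟩
        induction y using QuotientGroup.induction_on with
        | H a =>
          by_cases he : ψ a = e
          · exact ⟨(a : A ⧸ (K ⊓ ψ.ker)), by rw [hf, he]⟩
          · refine ⟨((a * k : A) : A ⧸ (K ⊓ ψ.ker)), ?_⟩
            rw [hf, map_mul, hkm, Prod.mk.injEq]
            constructor
            · rw [QuotientGroup.eq, mul_inv_rev, mul_assoc, inv_mul_cancel, mul_one]
              exact K.inv_mem hk
            · rcases Int.units_eq_one_or (ψ a) with h1 | h1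
              · rw [h1] at he ⊢
                rw [one_mul]
                exact (Ind_sgn e (Ne.symm he)).symm
              · rw [h1] at he ⊢
                rcases Int.units_eq_one_or e with h2 | h2
                · rw [h2]; rfl
                · exact absurd h2.symm he
    unfold pc pch
    have hcard : Nat.card (fx (A ⧸ (K ⊓ ψ.ker)) U) = Nat.card (fx (A ⧸ K) U × ℤˣ) := by
      refine Nat.card_congr ?_
      refine ((Equiv.ofBijective f hbij).subtypeEquiv
        (q := fun z : (A ⧸ K) × ℤˣ => z.1 ∈ fx (A ⧸ K) U) fun x => ?_).trans ?_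
      · induction x using QuotientGroup.induction_on with
        | H a =>
          change (a : A ⧸ (K ⊓ ψ.ker)) ∈ fx (A ⧸ (K ⊓ ψ.ker)) U ↔ (a : A ⧸ K) ∈ fx (A ⧸ K) U
          rw [Ind_fixed, Ind_fixed]
          refine forall₂_congr fun u hu => ?_
          rw [Subgroup.mem_inf, MonoidHom.mem_ker, map_mul, map_mul, map_inv, mul_right_comm,
            inv_mul_cancel, one_mul]
          exact and_iff_left (hU u hu)
      · exact
          { toFun := fun z => (⟨z.1.1, z.2⟩, z.1.2)
            invFun := fun z => ⟨(z.1.1, z.2), z.1.2⟩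
            left_inv := fun z => rfl
            right_inv := fun z => rfl }
    rw [hcard, Nat.card_prod]
    have h2 : Nat.card ℤˣ = 2 := by
      rw [Nat.card_eq_fintype_card]
      rfl
    rw [h2]
    push_cast
    rfl
  · rw [mul_zero]
    symm
    unfold pc pch
    rw [Nat.cast_eq_zero, Nat.card_eq_zero]
    left
    refine ⟨fun z => hU ?_⟩
    obtain ⟨z, hz⟩ := z
    induction z using QuotientGroup.induction_on with
    | H a =>
      intro u hu
      have h1 := (Ind_fixed _ U a).1 hz u hu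
      rw [Subgroup.mem_inf, MonoidHom.mem_ker, map_mul, map_mul, map_inv, mul_right_comm,
        inv_mul_cancel, one_mul] at h1
      exact h1.2

/-- the double cover of `G ⧸ K`, `K ≤ H`, given by a character of `H` -/
theorem iH_tw (H : Subgroup G) [Finite (G ⧸ H)] (K : Subgroup H) [Finite (H ⧸ K)]
    {χ : G → ℤˣ} (hχ : Mulp H χ) : iH H (pc K * tw H χ) = pq (K.map H.subtype) χ := by
  classical
  have htw : tw H χ = fun U : Subgroup H => if ∀ u ∈ U, Ind_hom hχ u = 1 then (2 : ℤ) else 0 := by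
    funext U
    by_cases hU : ∀ u ∈ U, χ (u : G) = 1
    · exact (if_pos hU).trans (if_pos (show ∀ u ∈ U, Ind_hom hχ u = 1 from hU)).symm
    · exact (if_neg hU).trans (if_neg (show ¬ ∀ u ∈ U, Ind_hom hχ u = 1 from hU)).symm
  have hle : K.map H.subtype ≤ H := Subgroup.map_subtype_le K
  unfold pq
  by_cases h : Tr (K.map H.subtype) χ
  · rw [if_pos h, htw, Ind_triv (Ind_hom hχ) K, map_zsmul, iH_pc]
    intro k hk
    exact h k ⟨k, hk, rfl⟩
  · rw [if_neg h, htw]
    unfold Tr at h
    push Not at h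
    obtain ⟨g, ⟨k, hk, hkg⟩, hg⟩ := h
    have hkg' : (k : G) = g := hkg
    rw [← hkg'] at hg
    rw [Ind_nontriv (Ind_hom hχ) K k hk hg]
    have : K.FiniteIndex := Subgroup.finiteIndex_of_finite_quotient
    have : (K ⊓ (Ind_hom hχ).ker).FiniteIndex := inferInstance
    have : Finite (H ⧸ (K ⊓ (Ind_hom hχ).ker)) := Subgroup.finite_quotient_of_finiteIndex
    rw [iH_pc]
    congr 1
    ext x
    rw [mem_kr (hχ.mono hle), Subgroup.mem_map, Subgroup.mem_map]
    constructor
    · rintro ⟨y, hy, rfl⟩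
      rw [Subgroup.mem_inf, MonoidHom.mem_ker] at hy
      exact ⟨⟨y, hy.1, rfl⟩, hy.2⟩
    · rintro ⟨⟨y, hy, rfl⟩, hx⟩
      refine ⟨y, ?_, rfl⟩
      rw [Subgroup.mem_inf, MonoidHom.mem_ker]
      exact ⟨hy, hx⟩

theorem pq_eq (H : Subgroup G) [Finite (G ⧸ H)] {χ : G → ℤˣ} (hχ : Mulp H χ) :
    pq H χ = iH H (tw H χ) := by
  have h := iH_tw H (⊤ : Subgroup H) hχ
  rw [pc_top, one_mul] at h
  rw [h]
  congr 1
  ext x
  simp

/-- the conjugate of a cyclic subgroup -/
private theorem Ind_cj_zp (a t : G) :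
    cj a (Subgroup.zpowers t) = Subgroup.zpowers (a⁻¹ * t * a) := by
  unfold cj
  rw [MonoidHom.map_zpowers]
  congr 1
  change a⁻¹ * t * a⁻¹⁻¹ = a⁻¹ * t * a
  rw [inv_inv]

/-- the value of an induced function at a cyclic subgroup only depends on the values at the cyclic
subgroups -/
theorem iH_zp (H : Subgroup G) [Finite (G ⧸ H)] {x y : Subgroup H → ℤ}
    (h : ∀ t : H, x (Subgroup.zpowers t) = y (Subgroup.zpowers t)) (t : G) :
    iH H x (Subgroup.zpowers t) = iH H y (Subgroup.zpowers t) := by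
  classical
  let _ := Fintype.ofFinite (G ⧸ H)
  change (∑ q : G ⧸ H, if cj q.out (Subgroup.zpowers t) ≤ H then
      x ((cj q.out (Subgroup.zpowers t)).subgroupOf H) else 0) =
    ∑ q : G ⧸ H, if cj q.out (Subgroup.zpowers t) ≤ H then
      y ((cj q.out (Subgroup.zpowers t)).subgroupOf H) else 0
  refine Finset.sum_congr rfl fun q _ => ?_
  split_ifs with hq
  · rw [Ind_cj_zp] at hq ⊢
    have hs : q.out⁻¹ * t * q.out ∈ H := hq (Subgroup.mem_zpowers _)
    have h1 : (Subgroup.zpowers (q.out⁻¹ * t * q.out)).subgroupOf H =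
        Subgroup.zpowers (⟨q.out⁻¹ * t * q.out, hs⟩ : H) := by
      ext z
      rw [Subgroup.mem_subgroupOf, Subgroup.mem_zpowers_iff, Subgroup.mem_zpowers_iff]
      refine exists_congr fun n => ?_
      rw [Subtype.ext_iff, SubgroupClass.coe_zpow]
    rw [h1]
    exact h _
  · rfl

/-- at the decomposition groups of `T` a `T`-trivial character counts as `2` -/
theorem iH_T {T : Finset ℕ} (H : Subgroup GQ) [Finite (GQ ⧸ H)] {χ : GQ → ℤˣ}
    (hT : TTr T H χ) (x : Subgroup H → ℤ) (P : Pl) (hP : PinT T P) (U : Subgroup GQ)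
    (hU : U ≤ P.D) : iH H (x * tw H χ) U = 2 * iH H x U := by
  classical
  let _ := Fintype.ofFinite (GQ ⧸ H)
  change (∑ q : GQ ⧸ H, if cj q.out U ≤ H then
      (x * tw H χ) ((cj q.out U).subgroupOf H) else 0) =
    2 * ∑ q : GQ ⧸ H, if cj q.out U ≤ H then x ((cj q.out U).subgroupOf H) else 0
  rw [Finset.mul_sum]
  refine Finset.sum_congr rfl fun q _ => ?_
  split_ifs with hq
  · have h1 : tw H χ ((cj q.out U).subgroupOf H) = 2 := by
      unfold tw
      rw [if_pos]
      intro u hu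
      rw [Subgroup.mem_subgroupOf] at hu
      refine hT (P.mv q.out⁻¹) hP u ?_ u.2
      obtain ⟨v, hv, hvu⟩ := mem_cj_iff.1 hu
      obtain ⟨d, hd, hdv⟩ := mem_cj_iff.1 (hU hv)
      refine mem_cj_iff.2 ⟨d, hd, ?_⟩
      rw [← hvu, ← hdv]
      change ((q.out⁻¹ * P.g)⁻¹)⁻¹ * d * (q.out⁻¹ * P.g)⁻¹ = _
      group
    rw [Pi.mul_apply, h1, mul_comm]
  · rw [mul_zero]

theorem pq_congr {H : Subgroup G} {χ χ' : G → ℤˣ} (h : ∀ g ∈ H, χ g = χ' g) :
    pq H χ = pq H χ' := by
  classical
  have h1 : Tr H χ ↔ Tr H χ' := forall₂_congr fun g hg => by rw [h g hg]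
  have h2 : kr H χ = kr H χ' := by
    ext g
    constructor
    · rintro ⟨hg, hx⟩
      exact ⟨hg, fun x hxH => by rw [← h x hxH, ← h _ (H.mul_mem hxH hg)]; exact hx x hxH⟩
    · rintro ⟨hg, hx⟩
      exact ⟨hg, fun x hxH => by rw [h x hxH, h _ (H.mul_mem hxH hg)]; exact hx x hxH⟩
  unfold pq
  rw [h2]
  by_cases h3 : Tr H χ
  · rw [if_pos h3, if_pos (h1.1 h3)]
  · rw [if_neg h3, if_neg fun h4 => h3 (h1.2 h4)]

private theorem Ind_mem_cj {H : Subgroup G} {h g : G} : g ∈ cj h⁻¹ H ↔ h⁻¹ * g * h ∈ H := by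
  rw [mem_cj_iff]
  constructor
  · rintro ⟨u, hu, rfl⟩
    have : h⁻¹ * (h⁻¹⁻¹ * u * h⁻¹) * h = u := by group
    rw [this]
    exact hu
  · intro hg
    exact ⟨_, hg, by group⟩

/-- conjugation -/
theorem pq_cx (H : Subgroup G) (χ : G → ℤˣ) (h : G) :
    pq (cj h⁻¹ H) (cx h χ) = pq H χ := by
  classical
  have hpc : ∀ K : Subgroup G, pc (cj h⁻¹ K) = pc K := by
    intro K
    unfold cj
    rw [inv_inv]
    exact pc_conj K h
  have h1 : Tr (cj h⁻¹ H) (cx h χ) ↔ Tr H χ := by
    constructor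
    · intro h3 g hg
      have h4 := h3 (h * g * h⁻¹) (Ind_mem_cj.2 (by
        have : h⁻¹ * (h * g * h⁻¹) * h = g := by group
        rw [this]; exact hg))
      unfold cx at h4
      have : h⁻¹ * (h * g * h⁻¹) * h = g := by group
      rwa [this] at h4
    · intro h3 g hg
      exact h3 _ (Ind_mem_cj.1 hg)
  have h2 : kr (cj h⁻¹ H) (cx h χ) = cj h⁻¹ (kr H χ) := by
    ext g
    rw [Ind_mem_cj]
    constructor
    · rintro ⟨hg, hx⟩
      refine ⟨Ind_mem_cj.1 hg, fun x hxH => ?_⟩
      have h4 := hx (h * x * h⁻¹) (Ind_mem_cj.2 (by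
        have : h⁻¹ * (h * x * h⁻¹) * h = x := by group
        rw [this]; exact hxH))
      unfold cx at h4
      have h5 : h⁻¹ * (h * x * h⁻¹ * g) * h = x * (h⁻¹ * g * h) := by group
      have h6 : h⁻¹ * (h * x * h⁻¹) * h = x := by group
      rwa [h5, h6] at h4
    · rintro ⟨hg, hx⟩
      refine ⟨Ind_mem_cj.2 hg, fun x hxH => ?_⟩
      have h4 := hx _ (Ind_mem_cj.1 hxH)
      unfold cx
      have h5 : h⁻¹ * (x * g) * h = h⁻¹ * x * h * (h⁻¹ * g * h) := by group
      rw [h5]
      exact h4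
  unfold pq
  rw [h2, hpc, hpc]
  by_cases h3 : Tr H χ
  · rw [if_pos h3, if_pos (h1.2 h3)]
  · rw [if_neg h3, if_neg fun h4 => h3 (h1.1 h4)]

end Pool.Agent.GJ
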