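import Pool.Agent.GJ.R.Ind

/-!
# GJ/R-V4: the relation of a biquadratic extension (paper C1)

All five terms are induced from functions on the subgroups of `H`. At a subgroup of `H` which is cyclic, or on which
`a` and `b` are trivial, `(1 + a) + (1 + b) + (1 + a b) = 2 + (1 + a)(1 + b)`.
-/

namespace Pool.Agent.GJ

open MulAction Pool.Agent.H73.DU Pool.Agent.H73.AL Pool.Agent.LD Pool.Agent.TS

private theorem v4_congr {G : Type} [Group G] (H : Subgroup G) [Finite (G ⧸ H)]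
    {f g : Subgroup H → ℤ} (U : Subgroup G)
    (h : ∀ a : G, cj a U ≤ H → f ((cj a U).subgroupOf H) = g ((cj a U).subgroupOf H)) :
    iH H f U = iH H g U := by
  classical
  letI := Fintype.ofFinite (G ⧸ H)
  change (∑ x : G ⧸ H, if cj x.out U ≤ H then f ((cj x.out U).subgroupOf H) else 0) =
    ∑ x : G ⧸ H, if cj x.out U ≤ H then g ((cj x.out U).subgroupOf H) else 0
  refine Finset.sum_congr rfl fun x _ => ?_
  split_ifs with h1
  · exact h _ h1
  · rfl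

private theorem v4_units (x : ℤˣ) (h : x ≠ 1) : x = -1 := by
  rcases Int.units_eq_one_or x with h1 | h1
  · exact absurd h1 h
  · exact h1

/-- the two characters as a homomorphism -/
private def v4_hom {G : Type} [Group G] {H : Subgroup G} {a b : G → ℤˣ} (ha : Mulp H a)
    (hb : Mulp H b) : H →* ℤˣ × ℤˣ where
  toFun h := (a h, b h)
  map_one' := by
    rw [OneMemClass.coe_one, ha.one, hb.one]
    rfl
  map_mul' := by
    intro x y
    rw [Subgroup.coe_mul, ha _ x.2 _ y.2, hb _ x.2 _ y.2]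
    rfl

private theorem v4_dec : ∀ e1 e2 d x y : ℤˣ, ∃ i j k : Fin 2,
    ((-1, e1) : ℤˣ × ℤˣ) ^ (i : ℕ) * ((e2, -1) : ℤˣ × ℤˣ) ^ (j : ℕ) * ((d, -d) : ℤˣ × ℤˣ) ^ (k : ℕ) = (x, y) := by
  decide

private theorem v4_index {G : Type} [Group G] {H : Subgroup G} {a b : G → ℤˣ} (ha : Mulp H a)
    (hb : Mulp H b) (ha1 : ¬ Tr H a) (hb1 : ¬ Tr H b) (hab : ¬ Tr H (a * b)) :
    (v4_hom ha hb).ker.index = 4 := by
  have hsurj : Function.Surjective (v4_hom ha hb) := by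
    unfold Tr at ha1 hb1 hab
    push Not at ha1 hb1 hab
    obtain ⟨g1, hg1, h1⟩ := ha1
    obtain ⟨g2, hg2, h2⟩ := hb1
    obtain ⟨g3, hg3, h3⟩ := hab
    have h1' := v4_units _ h1
    have h2' := v4_units _ h2
    have h3' : b g3 = -a g3 := by
      have h4 : a g3 * b g3 = -1 := v4_units _ h3
      have h5 : a g3 * a g3 = 1 := Int.units_mul_self _
      calc b g3 = (a g3 * a g3) * b g3 := by rw [h5, one_mul]
        _ = a g3 * (a g3 * b g3) := mul_assoc _ _ _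
        _ = -a g3 := by rw [h4, mul_neg, mul_one]
    rintro ⟨x, y⟩
    obtain ⟨i, j, k, hijk⟩ := v4_dec (b g1) (a g2) (a g3) x y
    refine ⟨(⟨g1, hg1⟩ : H) ^ (i : ℕ) * (⟨g2, hg2⟩ : H) ^ (j : ℕ) * (⟨g3, hg3⟩ : H) ^ (k : ℕ), ?_⟩
    rw [map_mul, map_mul, map_pow, map_pow, map_pow, ← hijk]
    have e1 : v4_hom ha hb ⟨g1, hg1⟩ = (-1, b g1) := Prod.ext h1' rfl
    have e2 : v4_hom ha hb ⟨g2, hg2⟩ = (a g2, -1) := Prod.ext rfl h2'
    have e3 : v4_hom ha hb ⟨g3, hg3⟩ = (a g3, -a g3) := Prod.ext rfl h3'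
    rw [e1, e2, e3]
  rw [Subgroup.index_ker, MonoidHom.range_eq_top.2 hsurj]
  have h6 : Nat.card (⊤ : Subgroup (ℤˣ × ℤˣ)) = Nat.card (ℤˣ × ℤˣ) :=
    Nat.card_congr Subgroup.topEquiv.toEquiv
  rw [h6, Nat.card_eq_fintype_card]
  rfl

private theorem v4_mem_ker {G : Type} [Group G] {H : Subgroup G} {a b : G → ℤˣ} (ha : Mulp H a)
    (hb : Mulp H b) (h : H) : h ∈ (v4_hom ha hb).ker ↔ a h = 1 ∧ b h = 1 := by
  rw [MonoidHom.mem_ker]
  exact Prod.mk_eq_one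

private theorem v4_map {G : Type} [Group G] {H : Subgroup G} {a b : G → ℤˣ} (ha : Mulp H a)
    (hb : Mulp H b) : (v4_hom ha hb).ker.map H.subtype = kr H a ⊓ kr H b := by
  ext g
  rw [Subgroup.mem_map, Subgroup.mem_inf, mem_kr ha, mem_kr hb]
  constructor
  · rintro ⟨h, hh, rfl⟩
    rw [v4_mem_ker] at hh
    exact ⟨⟨h.2, hh.1⟩, h.2, hh.2⟩
  · rintro ⟨⟨h1, h2⟩, -, h3⟩
    exact ⟨⟨g, h1⟩, (v4_mem_ker ha hb _).2 ⟨h2, h3⟩, rfl⟩

/-- the relation at a subgroup `W` of `H` -/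
private theorem v4_loc {G : Type} [Group G] {H : Subgroup G} {a b : G → ℤˣ} (ha : Mulp H a)
    (hb : Mulp H b) (ha1 : ¬ Tr H a) (hb1 : ¬ Tr H b) (hab : ¬ Tr H (a * b)) (W : Subgroup H)
    (hW : (∃ w, W = Subgroup.zpowers w) ∨ ∀ w ∈ W, a w = 1 ∧ b w = 1) :
    (tw H a + tw H b + tw H (a * b)) W = (1 + 1 + pc (v4_hom ha hb).ker) W := by
  classical
  have hpc := pc_normal (v4_hom ha hb).ker W
  rw [v4_index ha hb ha1 hb1 hab] at hpc
  rw [Pi.add_apply, Pi.add_apply, Pi.add_apply, Pi.add_apply, hpc]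
  unfold tw
  by_cases hall : ∀ w ∈ W, a w = 1 ∧ b w = 1
  · rw [if_pos (fun w hw => (hall w hw).1), if_pos (fun w hw => (hall w hw).2), if_pos, if_pos]
    · rfl
    · intro w hw
      exact (v4_mem_ker ha hb w).2 (hall w hw)
    · intro w hw
      rw [Pi.mul_apply, (hall w hw).1, (hall w hw).2, one_mul]
  · obtain ⟨w0, rfl⟩ : ∃ w, W = Subgroup.zpowers w := hW.resolve_right hall
    have hz : ∀ c : G → ℤˣ, Mulp H c → ((∀ u ∈ Subgroup.zpowers w0, c (u : G) = 1) ↔ c w0 = 1) := by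
      intro c hc
      constructor
      · intro h
        exact h _ (Subgroup.mem_zpowers _)
      · intro h u hu
        have h1 : Subgroup.zpowers w0 ≤ (kr H c).subgroupOf H := by
          rw [Subgroup.zpowers_le, Subgroup.mem_subgroupOf, mem_kr hc]
          exact ⟨w0.2, h⟩
        have h2 := h1 hu
        rw [Subgroup.mem_subgroupOf, mem_kr hc] at h2
        exact h2.2
    have hk : ¬ Subgroup.zpowers w0 ≤ (v4_hom ha hb).ker := by
      intro h
      apply hall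
      intro w hw
      exact (v4_mem_ker ha hb w).1 (h hw)
    have hne : ¬ (a w0 = 1 ∧ b w0 = 1) := by
      intro h
      apply hk
      rw [Subgroup.zpowers_le]
      exact (v4_mem_ker ha hb w0).2 h
    rw [if_neg hk]
    have e1 := hz a ha
    have e2 := hz b hb
    have e3 := hz (a * b) (ha.mul hb)
    rw [Pi.mul_apply] at e3
    simp only [e1, e2, e3]
    rcases Int.units_eq_one_or (a w0) with h1 | h1 <;> rcases Int.units_eq_one_or (b w0) with h2 | h2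
    · exact absurd ⟨h1, h2⟩ hne
    · rw [h1, h2]
      norm_num
    · rw [h1, h2]
      norm_num
    · rw [h1, h2]
      norm_num

theorem v4 {T : Finset ℕ} {H : Subgroup GQ} (hH : IsOpen (H : Set GQ)) {a b : GQ → ℤˣ}
    (ha : IsChr H a) (hb : IsChr H b) (ha1 : ¬ Tr H a) (hb1 : ¬ Tr H b) (hab : ¬ Tr H (a * b))
    (hat : TTr T H a) (hbt : TTr T H b) : ∀ U ∈ famT T,
      pc (kr H a) U + pc (kr H b) U + pc (kr H (a * b)) U = 2 * pc H U + pc (kr H a ⊓ kr H b) U := by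
  intro U hU
  have := fin_open hH
  have hpq : ∀ c : GQ → ℤˣ, Mulp H c → ¬ Tr H c → pc (kr H c) = iH H (tw H c) := by
    intro c hc hc1
    rw [← pq_eq H hc]
    unfold pq
    rw [if_neg hc1]
  have hfi : (v4_hom ha.1 hb.1).ker.FiniteIndex :=
    ⟨by rw [v4_index ha.1 hb.1 ha1 hb1 hab]; norm_num⟩
  have hfin : Finite (H ⧸ (v4_hom ha.1 hb.1).ker) := inferInstance
  rw [hpq a ha.1 ha1, hpq b hb.1 hb1, hpq (a * b) (ha.1.mul hb.1) hab, ← v4_map ha.1 hb.1,
    ← iH_pc H (v4_hom ha.1 hb.1).ker, ← iH_one H]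
  have h1 : iH H (tw H a) U + iH H (tw H b) U + iH H (tw H (a * b)) U =
      iH H (tw H a + tw H b + tw H (a * b)) U := by
    rw [map_add, map_add, Pi.add_apply, Pi.add_apply]
  have h2 : 2 * iH H 1 U + iH H (pc (v4_hom ha.1 hb.1).ker) U =
      iH H (1 + 1 + pc (v4_hom ha.1 hb.1).ker) U := by
    rw [map_add, map_add, Pi.add_apply, Pi.add_apply, two_mul]
  rw [h1, h2]
  refine v4_congr H U fun x hx => ?_
  apply v4_loc ha.1 hb.1 ha1 hb1 hab
  rcases hU with ⟨g, rfl⟩ | ⟨l, hl, a0, hlT, ha0⟩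
  · left
    have h3 : cj x (Subgroup.zpowers g) = Subgroup.zpowers (x⁻¹ * g * x) := by
      unfold cj
      rw [MonoidHom.map_zpowers]
      simp
    rw [h3] at hx ⊢
    refine ⟨⟨x⁻¹ * g * x, hx (Subgroup.mem_zpowers _)⟩, ?_⟩
    ext w
    rw [Subgroup.mem_subgroupOf, Subgroup.mem_zpowers_iff, Subgroup.mem_zpowers_iff]
    constructor
    · rintro ⟨k, hk⟩
      exact ⟨k, Subtype.ext hk⟩
    · rintro ⟨k, rfl⟩
      exact ⟨k, rfl⟩
  · right
    intro w hw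
    rw [Subgroup.mem_subgroupOf] at hw
    have h4 : (w : GQ) ∈ (⟨l, x⁻¹ * a0⟩ : Pl).D := by
      unfold Pl.D
      rw [mem_cj_iff]
      obtain ⟨u, hu, huw⟩ := mem_cj_iff.1 hw
      refine ⟨a0⁻¹ * u * a0, ha0 (mem_cj hu), ?_⟩
      rw [← huw]
      group
    exact ⟨hat ⟨l, x⁻¹ * a0⟩ hlT _ h4 w.2, hbt ⟨l, x⁻¹ * a0⟩ hlT _ h4 w.2⟩

end Pool.Agent.GJ
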